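import Mathlib

set_option autoImplicit false

/-! Area computations in the plane `ℝ × ℝ`. -/

namespace H32.HT

open MeasureTheory Set

/-- A linear map of the plane given by its matrix. -/
noncomputable def lin (a b c d : ℝ) : (ℝ × ℝ) →ₗ[ℝ] (ℝ × ℝ) :=
  Matrix.toLin (Module.Basis.finTwoProd ℝ) (Module.Basis.finTwoProd ℝ) !![a, b; c, d]

@[simp] theorem lin_apply (a b c d : ℝ) (p : ℝ × ℝ) :
    lin a b c d p = (a * p.1 + b * p.2, c * p.1 + d * p.2) := by
  unfold lin
  rw [Matrix.toLin_finTwoProd_apply]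

theorem det_lin (a b c d : ℝ) : LinearMap.det (lin a b c d) = a * d - b * c := by
  unfold lin
  rw [LinearMap.det_toLin, Matrix.det_fin_two_of]

theorem vol_image_lin (a b c d : ℝ) (S : Set (ℝ × ℝ)) :
    volume (lin a b c d '' S) = ENNReal.ofReal |a * d - b * c| * volume S := by
  rw [Measure.addHaar_image_linearMap, det_lin]

theorem vol_preimage_lin (a b c d : ℝ) (h : a * d - b * c ≠ 0) (S : Set (ℝ × ℝ)) :
    volume (lin a b c d ⁻¹' S) = ENNReal.ofReal |(a * d - b * c)⁻¹| * volume S := by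
  rw [Measure.addHaar_preimage_linearMap _ (by rwa [det_lin]), det_lin]

/-- Area of a closed region between two graphs. -/
theorem vol_region {f g : ℝ → ℝ} (hf : Continuous f) (hg : Continuous g) {a b : ℝ} (hab : a ≤ b)
    (hfg : ∀ x, a ≤ x → x ≤ b → f x ≤ g x) :
    volume {p : ℝ × ℝ | a ≤ p.1 ∧ p.1 ≤ b ∧ f p.1 ≤ p.2 ∧ p.2 ≤ g p.1} =
      ENNReal.ofReal (∫ x in a..b, (g x - f x)) := by
  have hcl : IsClosed {p : ℝ × ℝ | a ≤ p.1 ∧ p.1 ≤ b ∧ f p.1 ≤ p.2 ∧ p.2 ≤ g p.1} := by
    apply IsClosed.and (isClosed_le continuous_const continuous_fst)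
    apply IsClosed.and (isClosed_le continuous_fst continuous_const)
    apply IsClosed.and (isClosed_le (hf.comp continuous_fst) continuous_snd)
    exact isClosed_le continuous_snd (hg.comp continuous_fst)
  rw [Measure.volume_eq_prod, Measure.prod_apply hcl.measurableSet]
  have e : ∀ x : ℝ, volume (Prod.mk x ⁻¹'
      {p : ℝ × ℝ | a ≤ p.1 ∧ p.1 ≤ b ∧ f p.1 ≤ p.2 ∧ p.2 ≤ g p.1}) =
      (Icc a b).indicator (fun x => ENNReal.ofReal (g x - f x)) x := by
    intro x
    by_cases hx : x ∈ Icc a b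
    · rw [indicator_of_mem hx]
      have : Prod.mk x ⁻¹' {p : ℝ × ℝ | a ≤ p.1 ∧ p.1 ≤ b ∧ f p.1 ≤ p.2 ∧ p.2 ≤ g p.1} =
          Icc (f x) (g x) := by
        ext y
        simp only [mem_preimage, mem_Icc]
        constructor
        · rintro ⟨_, _, h1, h2⟩
          exact ⟨h1, h2⟩
        · rintro ⟨h1, h2⟩
          exact ⟨hx.1, hx.2, h1, h2⟩
      rw [this, Real.volume_Icc]
    · rw [indicator_of_notMem hx]
      have : Prod.mk x ⁻¹' {p : ℝ × ℝ | a ≤ p.1 ∧ p.1 ≤ b ∧ f p.1 ≤ p.2 ∧ p.2 ≤ g p.1} = ∅ := by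
        ext y
        simp only [mem_preimage, mem_empty_iff_false, iff_false]
        rintro ⟨h1, h2, _⟩
        exact hx ⟨h1, h2⟩
      rw [this, measure_empty]
  simp_rw [e]
  rw [lintegral_indicator measurableSet_Icc, intervalIntegral.integral_of_le hab,
    ← integral_Icc_eq_integral_Ioc, ofReal_integral_eq_lintegral_ofReal]
  · exact ((hg.sub hf).continuousOn).integrableOn_Icc
  · refine (ae_restrict_iff' measurableSet_Icc).2 (Filter.Eventually.of_forall ?_)
    intro x hx
    exact sub_nonneg.2 (hfg x hx.1 hx.2)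

/-- Area of the part of a star-shaped set in the open first quadrant. -/
theorem vol_sector {n : ℝ → ℝ} (hc : Continuous n) (hpos : ∀ t, 0 ≤ t → t ≤ 1 → 0 < n t) :
    volume {p : ℝ × ℝ | 0 < p.1 ∧ 0 < p.2 ∧ (p.1 + p.2) * n (p.2 / (p.1 + p.2)) ≤ 1} =
      ENNReal.ofReal (1 / 2 * ∫ t in (0 : ℝ)..1, 1 / n t ^ 2) := by
  let f : ℝ × ℝ → ℝ × ℝ := fun q => (q.2 * (1 - q.1), q.2 * q.1)
  let S : Set (ℝ × ℝ) := {q | 0 < q.1 ∧ q.1 < 1 ∧ 0 < q.2 ∧ q.2 * n q.1 ≤ 1}
  have himg : {p : ℝ × ℝ | 0 < p.1 ∧ 0 < p.2 ∧ (p.1 + p.2) * n (p.2 / (p.1 + p.2)) ≤ 1} =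
      f '' S := by
    ext ⟨x, y⟩
    constructor
    · rintro ⟨hx, hy, h⟩
      simp only at hx hy h
      have hs : 0 < x + y := by linarith
      refine ⟨(y / (x + y), x + y), ⟨by positivity, ?_, hs, h⟩, ?_⟩
      · simp only
        rw [div_lt_one hs]; linarith
      · simp only [f, Prod.mk.injEq]
        constructor <;> field_simp
        ring
    · rintro ⟨⟨t, r⟩, ⟨h0, h1, h2, h3⟩, h4⟩
      simp only [f, Prod.mk.injEq] at h0 h1 h2 h3 h4
      obtain ⟨rfl, rfl⟩ := h4
      have e1 : r * (1 - t) + r * t = r := by ring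
      refine ⟨mul_pos h2 (by linarith), mul_pos h2 h0, ?_⟩
      simp only
      rw [e1, mul_div_cancel_left₀ _ h2.ne']
      exact h3
  have hS : MeasurableSet S := by
    apply MeasurableSet.inter (measurableSet_lt measurable_const measurable_fst)
    apply MeasurableSet.inter (measurableSet_lt measurable_fst measurable_const)
    apply MeasurableSet.inter (measurableSet_lt measurable_const measurable_snd)
    exact measurableSet_le (measurable_snd.mul (hc.measurable.comp measurable_fst))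
      measurable_const
  let f' : ℝ × ℝ → (ℝ × ℝ) →L[ℝ] (ℝ × ℝ) := fun q =>
    LinearMap.toContinuousLinearMap (lin (-q.2) (1 - q.1) q.2 q.1)
  have hf' : ∀ q ∈ S, HasFDerivWithinAt f (f' q) S q := by
    intro q _
    apply HasFDerivAt.hasFDerivWithinAt
    have a1 : HasFDerivAt (fun q : ℝ × ℝ => q.2) (ContinuousLinearMap.snd ℝ ℝ ℝ) q :=
      hasFDerivAt_snd
    have a2 : HasFDerivAt (fun q : ℝ × ℝ => q.1) (ContinuousLinearMap.fst ℝ ℝ ℝ) q :=
      hasFDerivAt_fst
    have a3 := a1.mul (a2.const_sub 1)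
    have a4 := a1.mul a2
    have a5 := a3.prodMk a4
    refine a5.congr_fderiv ?_
    ext <;> simp [f']
  have hinj : InjOn f S := by
    rintro ⟨t, r⟩ ⟨_, _, h2, _⟩ ⟨t', r'⟩ ⟨_, _, h2', _⟩ h
    simp only [f, Prod.mk.injEq] at h h2 h2'
    obtain ⟨ha, hb⟩ := h
    have hr : r = r' := by nlinarith
    subst hr
    have := mul_left_cancel₀ h2.ne' hb
    subst this
    rfl
  rw [himg, ← lintegral_abs_det_fderiv_eq_addHaar_image volume hS hf' hinj]
  have hdet : ∀ q : ℝ × ℝ, (f' q).det = -q.2 := by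
    intro q
    have : (f' q).det = LinearMap.det (lin (-q.2) (1 - q.1) q.2 q.1) := rfl
    rw [this, det_lin]
    ring
  simp_rw [hdet, abs_neg]
  rw [← lintegral_indicator hS, Measure.volume_eq_prod, lintegral_prod]
  swap
  · apply Measurable.aemeasurable
    apply Measurable.indicator _ hS
    exact (measurable_snd.abs).ennreal_ofReal
  have inner : ∀ t : ℝ, ∫⁻ r, S.indicator (fun q : ℝ × ℝ => ENNReal.ofReal |q.2|) (t, r) =
      (Ioo (0 : ℝ) 1).indicator (fun t => ENNReal.ofReal (1 / 2 * (1 / n t ^ 2))) t := by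
    intro t
    by_cases ht : t ∈ Ioo (0 : ℝ) 1
    · rw [indicator_of_mem ht]
      have hn := hpos t ht.1.le ht.2.le
      have e1 : ∀ r : ℝ, S.indicator (fun q : ℝ × ℝ => ENNReal.ofReal |q.2|) (t, r) =
          (Ioc 0 (1 / n t)).indicator (fun r => ENNReal.ofReal r) r := by
        intro r
        by_cases hr : r ∈ Ioc 0 (1 / n t)
        · rw [indicator_of_mem hr, indicator_of_mem]
          · simp only
            rw [abs_of_pos hr.1]
          · exact ⟨ht.1, ht.2, hr.1, (le_div_iff₀ hn).1 hr.2⟩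
        · rw [indicator_of_notMem hr, indicator_of_notMem]
          rintro ⟨_, _, h2, h3⟩
          exact hr ⟨h2, (le_div_iff₀ hn).2 h3⟩
      simp_rw [e1]
      rw [lintegral_indicator measurableSet_Ioc, ← ofReal_integral_eq_lintegral_ofReal]
      · rw [← intervalIntegral.integral_of_le (by positivity), integral_id]
        congr 1
        field_simp
        ring
      · exact (continuous_id.continuousOn.integrableOn_Icc).mono_set Ioc_subset_Icc_self
      · refine (ae_restrict_iff' measurableSet_Ioc).2 (Filter.Eventually.of_forall ?_)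
        intro x hx
        exact hx.1.le
    · rw [indicator_of_notMem ht]
      have e1 : ∀ r : ℝ, S.indicator (fun q : ℝ × ℝ => ENNReal.ofReal |q.2|) (t, r) = 0 := by
        intro r
        rw [indicator_of_notMem]
        rintro ⟨h0, h1, _, _⟩
        exact ht ⟨h0, h1⟩
      simp_rw [e1, lintegral_zero]
  simp_rw [inner]
  have hcont : ContinuousOn (fun t => 1 / n t ^ 2) (Icc (0 : ℝ) 1) := by
    apply ContinuousOn.div continuousOn_const (hc.pow 2).continuousOn
    intro t ht
    exact pow_ne_zero _ (hpos t ht.1 ht.2).ne'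
  rw [lintegral_indicator measurableSet_Ioo, intervalIntegral.integral_of_le zero_le_one,
    integral_Ioc_eq_integral_Ioo, ← integral_const_mul, ofReal_integral_eq_lintegral_ofReal]
  · exact ((hcont.const_smul (1 / 2 : ℝ)).integrableOn_Icc).mono_set Ioo_subset_Icc_self
  · refine (ae_restrict_iff' measurableSet_Ioo).2 (Filter.Eventually.of_forall ?_)
    intro t ht
    have := hpos t ht.1.le ht.2.le
    simp only [Pi.zero_apply]
    positivity

end H32.HT
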