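import Mathlib
import Pool.Agent.H32.HT.Area

set_option autoImplicit false

/-! Upper bound for the area of the polar region through slopes. -/

namespace H32.HT

open MeasureTheory Set

theorem abel_sum (a b : ℕ → ℝ) (k : ℕ) :
    ∑ i ∈ Finset.range (k + 1), a i * (b (i + 1) - b i) =
      a k * b (k + 1) - a 0 * b 0 - ∑ i ∈ Finset.range k, (a (i + 1) - a i) * b (i + 1) := by
  induction k with
  | zero => simp; ring
  | succ k ih =>
    rw [Finset.sum_range_succ, ih, Finset.sum_range_succ _ k]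
    ring

/-- The sequence of slopes. -/
noncomputable def slo (n : ℝ → ℝ) (k : ℕ) : ℕ → ℝ
  | 0 => -1
  | j + 1 => if j < k then k * (n (((j + 1 : ℕ) : ℝ) / k) - n ((j : ℝ) / k)) else 1

theorem integral_neg_part : ∫ m in (-1 : ℝ)..1, max 0 (-m) = 1 / 2 := by
  have hc : Continuous (fun m : ℝ => max 0 (-m)) := by fun_prop
  rw [← intervalIntegral.integral_add_adjacent_intervals (b := 0)
    (hc.intervalIntegrable _ _) (hc.intervalIntegrable _ _)]
  have h1 : ∫ m in (-1 : ℝ)..0, max 0 (-m) = ∫ m in (-1 : ℝ)..0, -m := by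
    apply intervalIntegral.integral_congr
    intro m hm
    rw [uIcc_of_le (by norm_num)] at hm
    exact max_eq_right (by linarith [hm.2])
  have h2 : ∫ m in (0 : ℝ)..1, max 0 (-m) = ∫ m in (0 : ℝ)..1, (0 : ℝ) := by
    apply intervalIntegral.integral_congr
    intro m hm
    rw [uIcc_of_le (by norm_num)] at hm
    exact max_eq_left (by linarith [hm.1])
  rw [h1, h2, intervalIntegral.integral_neg, integral_id]
  simp
  norm_num

theorem integral_slope (p t a b : ℝ) :
    ∫ m in a..b, (p - m * t - max 0 (-m)) =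
      p * (b - a) - t * (b ^ 2 - a ^ 2) / 2 - ∫ m in a..b, max 0 (-m) := by
  have hc : Continuous (fun m : ℝ => max 0 (-m)) := by fun_prop
  rw [intervalIntegral.integral_sub _ (hc.intervalIntegrable _ _),
    intervalIntegral.integral_sub _ _, intervalIntegral.integral_const,
    intervalIntegral.integral_mul_const, integral_id, smul_eq_mul]
  · ring
  · exact continuous_const.intervalIntegrable _ _
  · exact (continuous_id.mul continuous_const).intervalIntegrable _ _
  · exact (continuous_const.sub (continuous_id.mul continuous_const)).intervalIntegrable _ _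

section

variable {n : ℝ → ℝ} {k : ℕ} (hk : 0 < k) (h0 : n 0 = 1) (h1 : n 1 = 1)
  (hlo : ∀ t, 0 ≤ t → t ≤ 1 → t ≤ n t) (hlo' : ∀ t, 0 ≤ t → t ≤ 1 → 1 - t ≤ n t)
  (hcv : ∀ s t, 0 ≤ s → s ≤ 1 → 0 ≤ t → t ≤ 1 → 2 * n ((s + t) / 2) ≤ n s + n t)

include hk h0 h1 hlo hlo' hcv

theorem slo_mono_succ (j : ℕ) (hj : j ≤ k) : slo n k j ≤ slo n k (j + 1) := by
  have hk0 : (0 : ℝ) < k := by exact_mod_cast hk
  rcases Nat.eq_zero_or_pos j with rfl | hj0
  · simp only [slo, if_pos hk]
    have := hlo' (1 / k) (by positivity) (by rw [div_le_one hk0]; exact_mod_cast hk)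
    simp only [zero_add, Nat.cast_one, Nat.cast_zero, zero_div, h0]
    have e : (k : ℝ) * (n (1 / k) - 1) ≥ k * (-(1 / k)) :=
      mul_le_mul_of_nonneg_left (by linarith) hk0.le
    have e2 : (k : ℝ) * (-(1 / k)) = -1 := by field_simp
    linarith
  · obtain ⟨i, rfl⟩ : ∃ i, j = i + 1 := ⟨j - 1, by omega⟩
    simp only [slo]
    rw [if_pos (show i < k by omega)]
    by_cases hlt : i + 1 < k
    · rw [if_pos hlt]
      apply mul_le_mul_of_nonneg_left _ hk0.le
      have := hcv ((i : ℝ) / k) (((i + 1 + 1 : ℕ) : ℝ) / k) (by positivity)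
        (by rw [div_le_one hk0]; exact_mod_cast (by omega : i ≤ k)) (by positivity)
        (by rw [div_le_one hk0]; exact_mod_cast (by omega : i + 1 + 1 ≤ k))
      have e : ((i : ℝ) / k + ((i + 1 + 1 : ℕ) : ℝ) / k) / 2 = ((i + 1 : ℕ) : ℝ) / k := by
        push_cast; field_simp; ring
      rw [e] at this
      linarith
    · rw [if_neg hlt]
      have hik : i + 1 = k := by omega
      have e0 : ((i + 1 : ℕ) : ℝ) / k = 1 := by rw [hik]; exact div_self hk0.ne'
      rw [e0, h1]
      have e1 : (i : ℝ) / k = 1 - 1 / k := by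
        have : (i : ℝ) = k - 1 := by
          have : ((i + 1 : ℕ) : ℝ) = k := by rw [hik]
          push_cast at this; linarith
        rw [this]; field_simp
      have := hlo ((i : ℝ) / k) (by positivity)
        (by rw [div_le_one hk0]; exact_mod_cast (by omega : i ≤ k))
      have e2 : (k : ℝ) * (1 - n ((i : ℝ) / k)) ≤ k * (1 / k) :=
        mul_le_mul_of_nonneg_left (by linarith) hk0.le
      have e3 : (k : ℝ) * (1 / k) = 1 := by field_simp
      linarith

theorem slo_bounds (j : ℕ) (hj : j ≤ k + 1) : -1 ≤ slo n k j ∧ slo n k j ≤ 1 := by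
  constructor
  · induction j with
    | zero => simp [slo]
    | succ i ih =>
      exact (ih (by omega)).trans (slo_mono_succ hk h0 h1 hlo hlo' hcv i (by omega))
  · have : ∀ d, d ≤ k + 1 → slo n k (k + 1 - d) ≤ 1 := by
      intro d
      induction d with
      | zero => intro _; simp [slo]
      | succ d ih =>
        intro hd
        have a := slo_mono_succ hk h0 h1 hlo hlo' hcv (k + 1 - (d + 1)) (by omega)
        have e : k + 1 - (d + 1) + 1 = k + 1 - d := by omega
        rw [e] at a
        exact a.trans (ih (by omega))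
    have := this (k + 1 - j) (by omega)
    rwa [show k + 1 - (k + 1 - j) = j by omega] at this

theorem slo_sum_le :
    (k : ℝ) * ∑ i ∈ Finset.range k, (n ((i + 1 : ℕ) / k) - n ((i : ℕ) / k)) ^ 2 ≤ 1 := by
  have hk0 : (0 : ℝ) < k := by exact_mod_cast hk
  have h : ∀ i ∈ Finset.range k, (n ((i + 1 : ℕ) / k) - n ((i : ℕ) / k)) ^ 2 ≤ 1 / k ^ 2 := by
    intro i hi
    have hi' := Finset.mem_range.1 hi
    obtain ⟨b1, b2⟩ := slo_bounds hk h0 h1 hlo hlo' hcv (i + 1) (by omega)
    simp only [slo, if_pos hi'] at b1 b2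
    have e : (k * (n ((i + 1 : ℕ) / k) - n ((i : ℕ) / k))) ^ 2 ≤ 1 := by nlinarith
    rw [mul_pow] at e
    rw [le_div_iff₀ (by positivity)]
    linarith
  have h2 := Finset.sum_le_sum h
  rw [Finset.sum_const, Finset.card_range, nsmul_eq_mul] at h2
  calc (k : ℝ) * ∑ i ∈ Finset.range k, (n ((i + 1 : ℕ) / k) - n ((i : ℕ) / k)) ^ 2
      ≤ k * (k * (1 / k ^ 2)) := mul_le_mul_of_nonneg_left h2 hk0.le
    _ = 1 := by field_simp

theorem vol_polar_le :
    volume {q : ℝ × ℝ | 0 < q.1 ∧ 0 < q.2 ∧ ∀ t, 0 ≤ t → t ≤ 1 → (1 - t) * q.1 + t * q.2 ≤ n t} ≤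
      ENNReal.ofReal (1 - 1 / 2 * (k * ∑ i ∈ Finset.range k,
        (n ((i + 1 : ℕ) / k) - n ((i : ℕ) / k)) ^ 2)) := by
  have hk0 : (0 : ℝ) < k := by exact_mod_cast hk
  set R : Set (ℝ × ℝ) :=
    {q : ℝ × ℝ | 0 < q.1 ∧ 0 < q.2 ∧ ∀ t, 0 ≤ t → t ≤ 1 → (1 - t) * q.1 + t * q.2 ≤ n t} with hR
  have himg : volume (lin (-1) 1 1 0 '' R) = volume R := by
    rw [vol_image_lin]; norm_num
  rw [← himg]
  let U : ℕ → Set (ℝ × ℝ) := fun i => {p : ℝ × ℝ | slo n k i ≤ p.1 ∧ p.1 ≤ slo n k (i + 1) ∧
    max 0 (-p.1) ≤ p.2 ∧ p.2 ≤ n ((i : ℝ) / k) - p.1 * ((i : ℝ) / k)}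
  have hsub : lin (-1) 1 1 0 '' R ⊆ ⋃ i ∈ Finset.range (k + 1), U i := by
    rintro _ ⟨⟨a, b⟩, ⟨ha, hb, hab⟩, rfl⟩
    simp only at ha hb hab
    simp only [lin_apply]
    have e1 : -1 * a + 1 * b = b - a := by ring
    have e2 : 1 * a + 0 * b = a := by ring
    rw [e1, e2]
    have a1 := hab 0 le_rfl zero_le_one
    have a2 := hab 1 zero_le_one le_rfl
    rw [h0] at a1
    rw [h1] at a2
    have hex : ∃ j, b - a ≤ slo n k j := ⟨k + 1, by simp only [slo, lt_irrefl, if_false]; linarith⟩
    classical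
    let j := Nat.find hex
    have hj : b - a ≤ slo n k j := Nat.find_spec hex
    have hjk : j ≤ k + 1 := Nat.find_min' hex (by simp only [slo, lt_irrefl, if_false]; linarith)
    have hj0 : j ≠ 0 := by
      intro h
      rw [h] at hj
      simp only [slo] at hj
      linarith
    obtain ⟨i, hi⟩ : ∃ i, j = i + 1 := ⟨j - 1, by omega⟩
    have hlt : slo n k i < b - a := by
      by_contra hcon
      have := Nat.find_min' hex (not_lt.1 hcon)
      change j ≤ i at this
      omega
    rw [mem_iUnion₂]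
    refine ⟨i, Finset.mem_range.2 (by omega), hlt.le, by rw [← hi]; exact hj, ?_, ?_⟩
    · simp only
      rw [max_le_iff]
      constructor <;> linarith
    · simp only
      have := hab ((i : ℝ) / k) (by positivity)
        (by rw [div_le_one hk0]; exact_mod_cast (by omega : i ≤ k))
      nlinarith
  have hU : ∀ i ∈ Finset.range (k + 1), volume (U i) =
      ENNReal.ofReal (∫ m in slo n k i..slo n k (i + 1),
        (n ((i : ℝ) / k) - m * ((i : ℝ) / k) - max 0 (-m))) := by
    intro i hi
    have hi' := Finset.mem_range.1 hi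
    refine vol_region (f := fun m => max 0 (-m)) (g := fun m => n ((i : ℝ) / k) - m * ((i : ℝ) / k))
      (by fun_prop) (by fun_prop) (slo_mono_succ hk h0 h1 hlo hlo' hcv i (by omega)) ?_
    intro m hm1 hm2
    have b1 := (slo_bounds hk h0 h1 hlo hlo' hcv i (by omega)).1
    have b2 := (slo_bounds hk h0 h1 hlo hlo' hcv (i + 1) (by omega)).2
    have t0 : 0 ≤ (i : ℝ) / k := by positivity
    have t1 : (i : ℝ) / k ≤ 1 := by rw [div_le_one hk0]; exact_mod_cast (by omega : i ≤ k)
    have c1 := hlo _ t0 t1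
    have c2 := hlo' _ t0 t1
    rw [max_le_iff]
    constructor
    · nlinarith
    · nlinarith
  have hnn : ∀ i ∈ Finset.range (k + 1), 0 ≤ ∫ m in slo n k i..slo n k (i + 1),
        (n ((i : ℝ) / k) - m * ((i : ℝ) / k) - max 0 (-m)) := by
    intro i hi
    have hi' := Finset.mem_range.1 hi
    apply intervalIntegral.integral_nonneg (slo_mono_succ hk h0 h1 hlo hlo' hcv i (by omega))
    intro m hm
    have b1 := (slo_bounds hk h0 h1 hlo hlo' hcv i (by omega)).1
    have b2 := (slo_bounds hk h0 h1 hlo hlo' hcv (i + 1) (by omega)).2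
    have t0 : 0 ≤ (i : ℝ) / k := by positivity
    have t1 : (i : ℝ) / k ≤ 1 := by rw [div_le_one hk0]; exact_mod_cast (by omega : i ≤ k)
    have c1 := hlo _ t0 t1
    have c2 := hlo' _ t0 t1
    have hm1 := hm.1
    have hm2 := hm.2
    rw [sub_nonneg, max_le_iff]
    constructor
    · nlinarith
    · nlinarith
  calc volume (lin (-1) 1 1 0 '' R) ≤ volume (⋃ i ∈ Finset.range (k + 1), U i) :=
        measure_mono hsub
    _ ≤ ∑ i ∈ Finset.range (k + 1), volume (U i) := measure_biUnion_finset_le _ _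
    _ = ∑ i ∈ Finset.range (k + 1), ENNReal.ofReal (∫ m in slo n k i..slo n k (i + 1),
        (n ((i : ℝ) / k) - m * ((i : ℝ) / k) - max 0 (-m))) := Finset.sum_congr rfl hU
    _ = ENNReal.ofReal (∑ i ∈ Finset.range (k + 1), ∫ m in slo n k i..slo n k (i + 1),
        (n ((i : ℝ) / k) - m * ((i : ℝ) / k) - max 0 (-m))) :=
        (ENNReal.ofReal_sum_of_nonneg hnn).symm
    _ = _ := by
        congr 1
        simp_rw [integral_slope]
        rw [Finset.sum_sub_distrib, Finset.sum_sub_distrib]
        have hc : Continuous (fun m : ℝ => max 0 (-m)) := by fun_prop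
        rw [intervalIntegral.sum_integral_adjacent_intervals
          (fun i _ => hc.intervalIntegrable _ _)]
        rw [abel_sum (fun i => n ((i : ℝ) / k)) (fun i => slo n k i) k]
        have e1 : ∑ i ∈ Finset.range (k + 1),
            ((i : ℝ) / k) * (slo n k (i + 1) ^ 2 - slo n k i ^ 2) / 2 =
            (∑ i ∈ Finset.range (k + 1),
            ((i : ℝ) / k) * (slo n k (i + 1) ^ 2 - slo n k i ^ 2)) / 2 := by
          rw [Finset.sum_div]
        rw [e1, abel_sum (fun i => (i : ℝ) / k) (fun i => slo n k i ^ 2) k]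
        have s0 : slo n k 0 = -1 := rfl
        have s1 : slo n k (k + 1) = 1 := by simp [slo]
        simp only [s0, s1]
        rw [integral_neg_part, div_self hk0.ne', h1]
        simp only [Nat.cast_zero, zero_div, h0]
        have e2 : ∑ i ∈ Finset.range k, (n (((i + 1 : ℕ) : ℝ) / k) - n ((i : ℝ) / k)) *
            slo n k (i + 1) = k * ∑ i ∈ Finset.range k,
            (n ((i + 1 : ℕ) / k) - n ((i : ℕ) / k)) ^ 2 := by
          rw [Finset.mul_sum]
          apply Finset.sum_congr rfl
          intro i hi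
          simp only [slo, if_pos (Finset.mem_range.1 hi)]
          ring
        have e3 : ∑ i ∈ Finset.range k, ((((i + 1 : ℕ) : ℝ) / k) - ((i : ℝ) / k)) *
            slo n k (i + 1) ^ 2 = k * ∑ i ∈ Finset.range k,
            (n ((i + 1 : ℕ) / k) - n ((i : ℕ) / k)) ^ 2 := by
          rw [Finset.mul_sum]
          apply Finset.sum_congr rfl
          intro i hi
          simp only [slo, if_pos (Finset.mem_range.1 hi)]
          push_cast
          field_simp
          ring
        rw [e2, e3]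
        ring

end

end H32.HT
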