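import Mathlib

set_option autoImplicit false

/-! The one-dimensional variational inequality behind the sector estimate. -/

namespace H32.HT

open MeasureTheory intervalIntegral Set

/-- The parameter `l = 1 / golden ratio`. -/
noncomputable def lam : ℝ := (Real.sqrt 5 - 1) / 2

theorem lam_sq : lam ^ 2 + lam = 1 := by
  unfold lam
  have h : Real.sqrt 5 ^ 2 = 5 := Real.sq_sqrt (by norm_num)
  nlinarith [h]

theorem lam_lo : (0.618 : ℝ) < lam := by
  unfold lam
  have : (2.236 : ℝ) < Real.sqrt 5 := by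
    rw [Real.lt_sqrt (by norm_num)]; norm_num
  linarith

theorem lam_hi : lam < (0.61804 : ℝ) := by
  unfold lam
  have : Real.sqrt 5 < (2.23608 : ℝ) := by
    rw [Real.sqrt_lt' (by norm_num)]; norm_num
  linarith

theorem lam_pos : 0 < lam := by linarith [lam_lo]

theorem lam_lt_one : lam < 1 := by linarith [lam_hi]

/-- The square of the extremal gauge. -/
noncomputable def gg (t : ℝ) : ℝ := 1 - 2 * (1 - lam) * t * (1 - t)

/-- The extremal gauge. -/
noncomputable def ss (t : ℝ) : ℝ := Real.sqrt (gg t)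

theorem gg_lo (t : ℝ) : (0.809 : ℝ) ≤ gg t := by
  unfold gg
  have h1 := lam_lo
  have h2 := lam_lt_one
  nlinarith [mul_nonneg (sub_nonneg.2 h2.le) (sq_nonneg (t - 1 / 2))]

theorem gg_pos (t : ℝ) : 0 < gg t := by linarith [gg_lo t]

theorem gg_le_one {t : ℝ} (h0 : 0 ≤ t) (h1 : t ≤ 1) : gg t ≤ 1 := by
  unfold gg
  have h2 := lam_lt_one
  have := mul_nonneg (mul_nonneg (sub_nonneg.2 h2.le) h0) (sub_nonneg.2 h1)
  nlinarith

theorem ss_sq (t : ℝ) : ss t ^ 2 = gg t := Real.sq_sqrt (gg_pos t).le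

theorem ss_lo (t : ℝ) : (0.899 : ℝ) ≤ ss t := by
  unfold ss
  apply Real.le_sqrt_of_sq_le
  have := gg_lo t
  norm_num at this ⊢
  linarith

theorem ss_pos (t : ℝ) : 0 < ss t := by linarith [ss_lo t]

theorem ss_le_one {t : ℝ} (h0 : 0 ≤ t) (h1 : t ≤ 1) : ss t ≤ 1 := by
  unfold ss
  exact Real.sqrt_le_one.2 (gg_le_one h0 h1)

theorem ss_zero : ss 0 = 1 := by simp [ss, gg]

theorem ss_one : ss 1 = 1 := by simp [ss, gg]

/-- Derivative of `ss`. -/
noncomputable def ss' (t : ℝ) : ℝ := (1 - lam) * (2 * t - 1) / ss t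

theorem hasDerivAt_gg (t : ℝ) : HasDerivAt gg (2 * (1 - lam) * (2 * t - 1)) t := by
  unfold gg
  have h : HasDerivAt (fun t : ℝ => 1 - 2 * (1 - lam) * t * (1 - t))
      (0 - (2 * (1 - lam) * 1 * (1 - t) + 2 * (1 - lam) * t * (0 - 1))) t := by
    apply HasDerivAt.sub (hasDerivAt_const _ _)
    apply HasDerivAt.mul
    · exact (hasDerivAt_id t).const_mul (2 * (1 - lam))
    · exact (hasDerivAt_const _ _).sub (hasDerivAt_id t)
  convert h using 1
  ring

theorem hasDerivAt_ss (t : ℝ) : HasDerivAt ss (ss' t) t := by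
  have h := (hasDerivAt_gg t).sqrt (gg_pos t).ne'
  refine HasDerivAt.congr_deriv (f := ss) h ?_
  unfold ss' ss
  have : Real.sqrt (gg t) ≠ 0 := (Real.sqrt_pos.2 (gg_pos t)).ne'
  field_simp

theorem ss'_sq (t : ℝ) : ss' t ^ 2 = 2 * (1 - lam) - lam / gg t := by
  unfold ss'
  rw [div_pow, ss_sq]
  have h := (gg_pos t).ne'
  have hl := lam_sq
  field_simp
  unfold gg
  have h2 : lam ^ 2 = 1 - lam := by linarith
  ring_nf
  rw [h2]
  ring

theorem hasDerivAt_ss' (t : ℝ) : HasDerivAt ss' (lam / ss t ^ 3) t := by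
  have h1 : HasDerivAt (fun t : ℝ => (1 - lam) * (2 * t - 1)) ((1 - lam) * (2 * 1 - 0)) t := by
    apply HasDerivAt.const_mul
    exact ((hasDerivAt_id t).const_mul 2).sub (hasDerivAt_const _ _)
  have h := h1.div (hasDerivAt_ss t) (ss_pos t).ne'
  have e : ss' = (fun t : ℝ => (1 - lam) * (2 * t - 1)) / ss := by
    funext x; rfl
  rw [e]
  refine h.congr_deriv ?_
  have hp := (ss_pos t).ne'
  have hs : ss t ^ 2 = gg t := ss_sq t
  have hsq := ss'_sq t
  have hl := lam_sq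
  have hg := (gg_pos t).ne'
  have e2 : (1 - lam) * (2 * t - 1) = ss' t * ss t := by
    unfold ss'; field_simp
  rw [e2]
  rw [div_eq_div_iff (pow_ne_zero _ hp) (pow_ne_zero _ hp)]
  have e3 : ss' t * ss t * ss' t = (2 * (1 - lam) - lam / gg t) * ss t := by
    rw [← hsq]; ring
  rw [e3, ← hs]
  field_simp
  ring

/-- The weight function of the Wirtinger argument. -/
noncomputable def ww (t : ℝ) : ℝ := -7 * (t - 1 / 2) / (1 - 7 / 2 * (t - 1 / 2) ^ 2)

theorem ww_den {t : ℝ} (h0 : 0 ≤ t) (h1 : t ≤ 1) : 0 < 1 - 7 / 2 * (t - 1 / 2) ^ 2 := by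
  nlinarith [mul_nonneg h0 (sub_nonneg.2 h1)]

theorem hasDerivAt_ww {t : ℝ} (h0 : 0 ≤ t) (h1 : t ≤ 1) :
    HasDerivAt ww (-7 / (1 - 7 / 2 * (t - 1 / 2) ^ 2) - ww t ^ 2) t := by
  have hd := ww_den h0 h1
  have a1 : HasDerivAt (fun t : ℝ => -7 * (t - 1 / 2)) (-7 * (1 - 0)) t :=
    ((hasDerivAt_id t).sub (hasDerivAt_const _ _)).const_mul _
  have a2 : HasDerivAt (fun t : ℝ => 1 - 7 / 2 * (t - 1 / 2) ^ 2)
      (0 - 7 / 2 * (((2 : ℕ) : ℝ) * (t - 1 / 2) ^ (2 - 1) * (1 - 0))) t :=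
    (hasDerivAt_const _ _).sub
      ((((hasDerivAt_id t).sub (hasDerivAt_const _ _)).pow 2).const_mul _)
  have h := a1.div a2 hd.ne'
  have e : ww = (fun t : ℝ => -7 * (t - 1 / 2)) / (fun t : ℝ => 1 - 7 / 2 * (t - 1 / 2) ^ 2) := by
    funext x; rfl
  have e2 : -7 / (1 - 7 / 2 * (t - 1 / 2) ^ 2) - ww t ^ 2 =
      (-7 * (1 - 0) * (1 - 7 / 2 * (t - 1 / 2) ^ 2) - -7 * (t - 1 / 2) *
        (0 - 7 / 2 * (((2 : ℕ) : ℝ) * (t - 1 / 2) ^ (2 - 1) * (1 - 0)))) /
        (1 - 7 / 2 * (t - 1 / 2) ^ 2) ^ 2 := by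
    unfold ww
    have := hd.ne'
    field_simp
    push_cast
    ring
  rw [e2, e]
  exact h

/-- Key numeric inequality. -/
theorem key_num {s n : ℝ} (hs : 0.899 ≤ s) (hn : 1 / 2 ≤ n) :
    lam * (s + 2 * n) ≤ 6.5 * s ^ 3 * n ^ 2 := by
  have hl := lam_hi
  have hs0 : 0 < s := by linarith
  have hn0 : 0 < n := by linarith
  have h1 : lam * (s + 2 * n) ≤ 0.61804 * (s + 2 * n) :=
    mul_le_mul_of_nonneg_right hl.le (by positivity)
  have h2 : (0.808201 : ℝ) ≤ s ^ 2 := by nlinarith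
  have h3 : 0.808201 * s ≤ s ^ 3 := by
    have := mul_le_mul_of_nonneg_right h2 hs0.le
    nlinarith
  have h4 : 6.5 * (0.808201 * s) * n ^ 2 ≤ 6.5 * s ^ 3 * n ^ 2 := by
    apply mul_le_mul_of_nonneg_right _ (sq_nonneg n)
    linarith
  have h5 : (1 / 4 : ℝ) ≤ n ^ 2 := by nlinarith
  have h6 : 0.61804 * (s + 2 * n) ≤ 6.5 * (0.808201 * s) * n ^ 2 := by
    have h7 : 0 ≤ (5.2533065 * n ^ 2 - 0.61804) * (s - 0.899) :=
      mul_nonneg (by nlinarith) (by linarith)
    nlinarith [mul_nonneg (sub_nonneg.2 hn) (sub_nonneg.2 hn)]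
  linarith

/-- The calibrating function. -/
noncomputable def Th (t n : ℝ) : ℝ := 2 * ss' t * (n - ss t) + ww t * (n - ss t) ^ 2

theorem Th_zero : Th 0 1 = 0 := by simp [Th, ss_zero]

theorem Th_one : Th 1 1 = 0 := by simp [Th, ss_one]

/-- Derivative of the calibrating function along a straight path. -/
noncomputable def ThD (t n p : ℝ) : ℝ :=
  2 * (lam / ss t ^ 3) * (n - ss t) + 2 * ss' t * (p - ss' t) +
    ((-7 / (1 - 7 / 2 * (t - 1 / 2) ^ 2) - ww t ^ 2) * (n - ss t) ^ 2 +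
      ww t * (2 * (n - ss t) * (p - ss' t)))

theorem hasDerivAt_Th {t t0 n0 p : ℝ} (h0 : 0 ≤ t) (h1 : t ≤ 1) :
    HasDerivAt (fun x => Th x (n0 + p * (x - t0))) (ThD t (n0 + p * (t - t0)) p) t := by
  have b1 : HasDerivAt (fun x : ℝ => n0 + p * (x - t0)) p t := by
    have := ((hasDerivAt_id t).sub (hasDerivAt_const t t0)).const_mul p
    have := (hasDerivAt_const t n0).add this
    exact this.congr_deriv (by ring)
  have b2 : HasDerivAt (fun x : ℝ => n0 + p * (x - t0) - ss x) (p - ss' t) t :=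
    b1.sub (hasDerivAt_ss t)
  have b3 := ((hasDerivAt_ss' t).const_mul 2).mul b2
  have b4 := (hasDerivAt_ww h0 h1).mul (b2.pow 2)
  have b5 := b3.add b4
  have e : (fun x => Th x (n0 + p * (x - t0))) =
      ((fun y => 2 * ss' y) * fun x => n0 + p * (x - t0) - ss x) +
        ww * (fun x => n0 + p * (x - t0) - ss x) ^ 2 := by
    funext x; simp [Th]
  rw [e]
  refine b5.congr_deriv ?_
  unfold ThD
  simp only [Pi.pow_apply]
  push_cast
  ring

theorem pointwise {t n p : ℝ} (h0 : 0 ≤ t) (h1 : t ≤ 1) (hn : 1 / 2 ≤ n) :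
    ThD t n p ≤ p ^ 2 - lam / n ^ 2 - (2 * (1 - lam) - 2 * lam / gg t) -
      1 / 2 * (n - ss t) ^ 2 := by
  have hd := ww_den h0 h1
  have hs := ss_lo t
  have hs0 := ss_pos t
  have hn0 : 0 < n := by linarith
  have k := key_num hs hn
  have hsq := ss'_sq t
  have e1 : p ^ 2 - lam / n ^ 2 - (2 * (1 - lam) - 2 * lam / gg t) -
      1 / 2 * (n - ss t) ^ 2 - ThD t n p =
      ((p - ss' t) - ww t * (n - ss t)) ^ 2 +
      (7 / (1 - 7 / 2 * (t - 1 / 2) ^ 2) - 1 / 2 -
        lam * (ss t + 2 * n) / (ss t ^ 3 * n ^ 2)) * (n - ss t) ^ 2 := by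
    unfold ThD
    have e2 : 2 * (1 - lam) = ss' t ^ 2 + lam / gg t := by rw [hsq]; ring
    rw [e2, ← ss_sq t]
    have := hd.ne'
    have e3 : lam / n ^ 2 = lam / ss t ^ 2 - 2 * (lam / ss t ^ 3) * (n - ss t) +
        lam * (ss t + 2 * n) / (ss t ^ 3 * n ^ 2) * (n - ss t) ^ 2 := by
      field_simp
      ring
    rw [e3]
    ring
  have e4 : lam * (ss t + 2 * n) / (ss t ^ 3 * n ^ 2) ≤ 6.5 := by
    rw [div_le_iff₀ (by positivity)]
    linarith
  have e5 : 7 ≤ 7 / (1 - 7 / 2 * (t - 1 / 2) ^ 2) := by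
    rw [le_div_iff₀ hd]
    nlinarith [sq_nonneg (t - 1 / 2)]
  have e6 : 0 ≤ (7 / (1 - 7 / 2 * (t - 1 / 2) ^ 2) - 1 / 2 -
        lam * (ss t + 2 * n) / (ss t ^ 3 * n ^ 2)) * (n - ss t) ^ 2 :=
    mul_nonneg (by linarith) (sq_nonneg _)
  nlinarith [sq_nonneg ((p - ss' t) - ww t * (n - ss t))]

theorem continuous_gg : Continuous gg := by unfold gg; fun_prop

theorem continuous_ss : Continuous ss := by
  unfold ss
  exact continuous_gg.sqrt

/-- The integrand. -/
noncomputable def Ph (n : ℝ → ℝ) (t : ℝ) : ℝ :=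
  lam / n t ^ 2 + (2 * (1 - lam) - 2 * lam / gg t) + 1 / 2 * (n t - ss t) ^ 2

theorem piece {n : ℝ → ℝ} (hc : Continuous n) (hlo : ∀ t, 0 ≤ t → t ≤ 1 → 1 / 2 ≤ n t)
    (hhi : ∀ t, 0 ≤ t → t ≤ 1 → n t ≤ 1)
    {t0 t1 p e : ℝ} (h0 : 0 ≤ t0) (h01 : t0 ≤ t1) (h1 : t1 ≤ 1)
    (hp : n t1 = n t0 + p * (t1 - t0))
    (he : ∀ t, t0 ≤ t → t ≤ t1 → |n t0 + p * (t - t0) - n t| ≤ e) :
    ∫ t in t0..t1, Ph n t ≤ (t1 - t0) * (p ^ 2 + 33 * e) - (Th t1 (n t1) - Th t0 (n t0)) := by
  have e0 : 0 ≤ e := (abs_nonneg _).trans (he t0 le_rfl h01)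
  have hI : ContinuousOn (Ph n) (Icc t0 t1) := by
    unfold Ph
    apply ContinuousOn.add
    · apply ContinuousOn.add
      · apply ContinuousOn.div continuousOn_const (hc.pow 2).continuousOn
        intro t ht
        have := hlo t (h0.trans ht.1) (ht.2.trans h1)
        exact pow_ne_zero _ (by linarith)
      · apply ContinuousOn.sub continuousOn_const
        apply ContinuousOn.div continuousOn_const continuous_gg.continuousOn
        intro t _
        exact (gg_pos t).ne'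
    · exact (continuous_const.mul ((hc.sub continuous_ss).pow 2)).continuousOn
  have hlin : ∀ t, t0 ≤ t → t ≤ t1 → 1 / 2 ≤ n t0 + p * (t - t0) ∧ n t0 + p * (t - t0) ≤ 1 := by
    intro t ha hb
    have a1 := hlo t0 h0 (h01.trans h1)
    have a2 := hlo t1 (h0.trans h01) h1
    have b1 := hhi t0 h0 (h01.trans h1)
    have b2 := hhi t1 (h0.trans h01) h1
    rcases le_total 0 p with hp0 | hp0
    · constructor
      · nlinarith [mul_nonneg hp0 (sub_nonneg.2 ha)]
      · nlinarith [mul_nonneg hp0 (sub_nonneg.2 hb)]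
    · constructor
      · nlinarith [mul_nonneg (neg_nonneg.2 hp0) (sub_nonneg.2 hb)]
      · nlinarith [mul_nonneg (neg_nonneg.2 hp0) (sub_nonneg.2 ha)]
  have key : (fun x => Th x (n t0 + p * (x - t0))) t1 - (fun x => Th x (n t0 + p * (x - t0))) t0 ≤
      ∫ t in t0..t1, ((p ^ 2 + 33 * e) - Ph n t) := by
    apply sub_le_integral_of_hasDeriv_right_of_le h01
      (g' := fun t => ThD t (n t0 + p * (t - t0)) p)
    · intro t ht
      exact (hasDerivAt_Th (h0.trans ht.1) (ht.2.trans h1)).continuousAt.continuousWithinAt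
    · intro t ht
      exact (hasDerivAt_Th (h0.trans ht.1.le) (ht.2.le.trans h1)).hasDerivWithinAt
    · exact (continuousOn_const.sub hI).integrableOn_Icc
    · intro t ht
      have q1 := hlin t ht.1.le ht.2.le
      have q2 := he t ht.1.le ht.2.le
      have q3 := hlo t (h0.trans ht.1.le) (ht.2.le.trans h1)
      have q4 := hhi t (h0.trans ht.1.le) (ht.2.le.trans h1)
      have q5 := pointwise (p := p) (h0.trans ht.1.le) (ht.2.le.trans h1) q1.1
      have s1 := ss_lo t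
      have s2 := ss_le_one (h0.trans ht.1.le) (ht.2.le.trans h1)
      set m := n t0 + p * (t - t0) with hm
      refine q5.trans ?_
      unfold Ph
      have r1 : (n t - ss t) ^ 2 - (m - ss t) ^ 2 ≤ 2 * e := by
        have : (n t - ss t) ^ 2 - (m - ss t) ^ 2 = (n t - m) * (n t + m - 2 * ss t) := by ring
        rw [this]
        have r2 : |n t - m| ≤ e := by rw [abs_sub_comm]; exact q2
        have r3 : |n t + m - 2 * ss t| ≤ 2 := by
          rw [abs_le]; constructor <;> linarith [q1.1, q1.2]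
        calc (n t - m) * (n t + m - 2 * ss t) ≤ |(n t - m) * (n t + m - 2 * ss t)| := le_abs_self _
          _ = |n t - m| * |n t + m - 2 * ss t| := abs_mul _ _
          _ ≤ e * 2 := mul_le_mul r2 r3 (abs_nonneg _) e0
          _ = 2 * e := by ring
      have r4 : lam / n t ^ 2 - lam / m ^ 2 ≤ 32 * e := by
        have hm0 : 0 < m := by linarith [q1.1]
        have hn0 : 0 < n t := by linarith
        have : lam / n t ^ 2 - lam / m ^ 2 = (m - n t) * (lam * (m + n t) / (n t ^ 2 * m ^ 2)) := by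
          field_simp
          ring
        rw [this]
        have r5 : lam * (m + n t) / (n t ^ 2 * m ^ 2) ≤ 32 := by
          rw [div_le_iff₀ (by positivity)]
          have : (1 / 4 : ℝ) ≤ n t ^ 2 := by nlinarith
          have : (1 / 4 : ℝ) ≤ m ^ 2 := by nlinarith [q1.1]
          have : (1 / 16 : ℝ) ≤ n t ^ 2 * m ^ 2 := by nlinarith
          have : lam * (m + n t) ≤ 1 * 2 :=
            mul_le_mul lam_lt_one.le (by linarith [q1.2]) (by linarith) zero_le_one
          nlinarith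
        have r6 : 0 ≤ lam * (m + n t) / (n t ^ 2 * m ^ 2) := by
          have := lam_pos
          positivity
        calc (m - n t) * (lam * (m + n t) / (n t ^ 2 * m ^ 2))
            ≤ |(m - n t) * (lam * (m + n t) / (n t ^ 2 * m ^ 2))| := le_abs_self _
          _ = |m - n t| * (lam * (m + n t) / (n t ^ 2 * m ^ 2)) := by
              rw [abs_mul, abs_of_nonneg r6]
          _ ≤ e * 32 := mul_le_mul q2 r5 r6 e0
          _ = 32 * e := by ring
      linarith
  have hint : IntervalIntegrable (Ph n) volume t0 t1 := by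
    apply ContinuousOn.intervalIntegrable
    rw [uIcc_of_le h01]; exact hI
  rw [intervalIntegral.integral_sub (by simp) hint, intervalIntegral.integral_const] at key
  simp only [smul_eq_mul] at key
  rw [← hp] at key
  have : n t0 + p * (t0 - t0) = n t0 := by ring
  rw [this] at key
  linarith

/-- The discrete-to-continuous inequality. -/
theorem var_main {n : ℝ → ℝ} (hc : Continuous n) (hlo : ∀ t, 0 ≤ t → t ≤ 1 → 1 / 2 ≤ n t)
    (hhi : ∀ t, 0 ≤ t → t ≤ 1 → n t ≤ 1) (hn0 : n 0 = 1) (hn1 : n 1 = 1)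
    (hL : ∀ x y, |n x - n y| ≤ 2 * |x - y|) {k : ℕ} (hk : 0 < k) :
    ∫ t in (0 : ℝ)..1, Ph n t ≤
      k * ∑ i ∈ Finset.range k, (n ((i + 1 : ℕ) / k) - n ((i : ℕ) / k)) ^ 2 + 132 / k := by
  have hk0 : (0 : ℝ) < k := by exact_mod_cast hk
  have hI : ∀ i < k, IntervalIntegrable (Ph n) volume (((i : ℕ) : ℝ) / k) (((i + 1 : ℕ) : ℝ) / k) := by
    intro i hi
    have hle : ((i : ℕ) : ℝ) / k ≤ ((i + 1 : ℕ) : ℝ) / k := by
      apply div_le_div_of_nonneg_right _ hk0.le
      push_cast; linarith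
    apply ContinuousOn.intervalIntegrable
    rw [uIcc_of_le hle]
    unfold Ph
    have hb : ∀ t ∈ Icc (((i : ℕ) : ℝ) / k) (((i + 1 : ℕ) : ℝ) / k), 0 ≤ t ∧ t ≤ 1 := by
      intro t ht
      constructor
      · exact le_trans (by positivity) ht.1
      · apply ht.2.trans
        rw [div_le_one hk0]
        exact_mod_cast hi
    apply ContinuousOn.add
    · apply ContinuousOn.add
      · apply ContinuousOn.div continuousOn_const (hc.pow 2).continuousOn
        intro t ht
        have := hlo t (hb t ht).1 (hb t ht).2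
        exact pow_ne_zero _ (by linarith)
      · apply ContinuousOn.sub continuousOn_const
        apply ContinuousOn.div continuousOn_const continuous_gg.continuousOn
        intro t _
        exact (gg_pos t).ne'
    · exact (continuous_const.mul ((hc.sub continuous_ss).pow 2)).continuousOn
  have hsum := sum_integral_adjacent_intervals (f := Ph n) (μ := volume)
    (a := fun i : ℕ => (i : ℝ) / k) (n := k) hI
  simp only [Nat.cast_zero, zero_div] at hsum
  rw [div_self hk0.ne'] at hsum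
  rw [← hsum]
  have hpiece : ∀ i ∈ Finset.range k, ∫ t in (((i : ℕ) : ℝ) / k)..(((i + 1 : ℕ) : ℝ) / k), Ph n t ≤
      (k * (n ((i + 1 : ℕ) / k) - n ((i : ℕ) / k)) ^ 2 + 132 / k * (1 / k)) -
      (Th (((i + 1 : ℕ) : ℝ) / k) (n (((i + 1 : ℕ) : ℝ) / k)) -
        Th (((i : ℕ) : ℝ) / k) (n (((i : ℕ) : ℝ) / k))) := by
    intro i hi
    have hi' := Finset.mem_range.1 hi
    have hd : (((i + 1 : ℕ) : ℝ) / k) - (((i : ℕ) : ℝ) / k) = 1 / k := by
      push_cast; field_simp; ring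
    have hle : ((i : ℕ) : ℝ) / k ≤ ((i + 1 : ℕ) : ℝ) / k := by
      have : (0 : ℝ) < 1 / k := by positivity
      linarith
    have h1 : ((i + 1 : ℕ) : ℝ) / k ≤ 1 := by
      rw [div_le_one hk0]
      exact_mod_cast hi'
    have hq : |k * (n ((i + 1 : ℕ) / k) - n ((i : ℕ) / k))| ≤ 2 := by
      rw [abs_mul, abs_of_pos hk0]
      have := hL (((i + 1 : ℕ) : ℝ) / k) (((i : ℕ) : ℝ) / k)
      rw [hd, abs_of_pos (by positivity : (0 : ℝ) < 1 / k)] at this
      calc (k : ℝ) * |n ((i + 1 : ℕ) / k) - n ((i : ℕ) / k)| ≤ k * (2 * (1 / k)) :=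
            mul_le_mul_of_nonneg_left this hk0.le
        _ = 2 := by field_simp
    have hmain := piece hc hlo hhi (t0 := ((i : ℕ) : ℝ) / k) (t1 := ((i + 1 : ℕ) : ℝ) / k)
      (p := k * (n ((i + 1 : ℕ) / k) - n ((i : ℕ) / k))) (e := 4 / k)
      (by positivity) hle h1 (by rw [hd]; field_simp; ring) (by
        intro t ha hb
        have c1 : |t - ((i : ℕ) : ℝ) / k| ≤ 1 / k := by
          rw [abs_of_nonneg (sub_nonneg.2 ha)]; linarith
        have c2 := hL (((i : ℕ) : ℝ) / k) t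
        rw [abs_sub_comm (((i : ℕ) : ℝ) / k) t] at c2
        have c3 : |k * (n ((i + 1 : ℕ) / k) - n ((i : ℕ) / k)) * (t - ((i : ℕ) : ℝ) / k)| ≤
            2 * (1 / k) := by
          rw [abs_mul]
          exact mul_le_mul hq c1 (abs_nonneg _) (by norm_num)
        have c4 : n (((i : ℕ) : ℝ) / k) + k * (n ((i + 1 : ℕ) / k) - n ((i : ℕ) / k)) *
            (t - ((i : ℕ) : ℝ) / k) - n t = (n (((i : ℕ) : ℝ) / k) - n t) +
            k * (n ((i + 1 : ℕ) / k) - n ((i : ℕ) / k)) * (t - ((i : ℕ) : ℝ) / k) := by ring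
        rw [c4]
        have c5 : (4 : ℝ) / k = 2 * (1 / k) + 2 * (1 / k) := by ring
        rw [c5]
        refine (abs_add_le _ _).trans (add_le_add ?_ c3)
        refine c2.trans ?_
        linarith)
    refine hmain.trans (le_of_eq ?_)
    rw [hd]
    field_simp
    ring
  refine (Finset.sum_le_sum hpiece).trans ?_
  rw [Finset.sum_sub_distrib, Finset.sum_add_distrib, ← Finset.mul_sum, Finset.sum_const,
    Finset.card_range]
  have htel := Finset.sum_range_sub (fun i : ℕ => Th ((i : ℝ) / k) (n ((i : ℝ) / k))) k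
  rw [htel]
  simp only [Nat.cast_zero, zero_div, nsmul_eq_mul]
  rw [div_self hk0.ne', hn0, hn1, Th_zero, Th_one]
  have : (k : ℝ) * (132 / k * (1 / k)) = 132 / k := by field_simp
  rw [this]
  linarith

end H32.HT
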