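import Mathlib
import Pool.Agent.H32.HT.Polar
import Pool.Agent.H32.HT.Var

set_option autoImplicit false

/-! The sector inequality for normalised bodies. -/

namespace H32.HT

open MeasureTheory Set Topology

/-- Area (Lebesgue measure) of a subset of the plane. -/
noncomputable def area (A : Set (ℝ × ℝ)) : ℝ := (volume A).toReal

/-- The polar set. -/
def polar (M : Set (ℝ × ℝ)) : Set (ℝ × ℝ) := {y | ∀ x ∈ M, x.1 * y.1 + x.2 * y.2 ≤ 1}

/-- The open first quadrant. -/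
def Quad : Set (ℝ × ℝ) := {p | 0 < p.1 ∧ 0 < p.2}

/-- Normalised symmetric convex bodies. -/
structure Nrm (M : Set (ℝ × ℝ)) : Prop where
  cvx : Convex ℝ M
  cl : IsClosed M
  sym : ∀ p ∈ M, -p ∈ M
  e1 : ((1 : ℝ), (0 : ℝ)) ∈ M
  e2 : ((0 : ℝ), (1 : ℝ)) ∈ M
  bd : ∀ p ∈ M, |p.1| ≤ 1 ∧ |p.2| ≤ 1

/-- The gauge along the segment. -/
noncomputable def ng (M : Set (ℝ × ℝ)) (t : ℝ) : ℝ := gauge M (1 - t, t)

namespace Nrm

variable {M : Set (ℝ × ℝ)} (h : Nrm M)

include h

theorem e1' : ((-1 : ℝ), (0 : ℝ)) ∈ M := by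
  have := h.sym _ h.e1
  simpa using this

theorem e2' : ((0 : ℝ), (-1 : ℝ)) ∈ M := by
  have := h.sym _ h.e2
  simpa using this

theorem mem_x {x : ℝ} (h1 : -1 ≤ x) (h2 : x ≤ 1) : (x, (0 : ℝ)) ∈ M := by
  have := h.cvx h.e1 h.e1' (a := (1 + x) / 2) (b := (1 - x) / 2) (by linarith) (by linarith)
    (by ring)
  convert this using 1
  ext
  · simp; ring
  · simp

theorem mem_y {x : ℝ} (h1 : -1 ≤ x) (h2 : x ≤ 1) : ((0 : ℝ), x) ∈ M := by
  have := h.cvx h.e2 h.e2' (a := (1 + x) / 2) (b := (1 - x) / 2) (by linarith) (by linarith)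
    (by ring)
  convert this using 1
  ext
  · simp
  · simp; ring

theorem nhds : M ∈ 𝓝 (0 : ℝ × ℝ) := by
  rw [Metric.mem_nhds_iff]
  refine ⟨1 / 2, by norm_num, ?_⟩
  rintro ⟨x, y⟩ hp
  rw [Metric.mem_ball, dist_zero_right, Prod.norm_def, max_lt_iff] at hp
  simp only [Real.norm_eq_abs] at hp
  obtain ⟨hx, hy⟩ := hp
  rw [abs_lt] at hx hy
  have := h.cvx (h.mem_x (x := 2 * x) (by linarith) (by linarith))
    (h.mem_y (x := 2 * y) (by linarith) (by linarith)) (a := 1 / 2) (b := 1 / 2)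
    (by norm_num) (by norm_num) (by norm_num)
  convert this using 1
  ext <;> simp

theorem gauge_le_one_iff (p : ℝ × ℝ) : gauge M p ≤ 1 ↔ p ∈ M := by
  rw [_root_.gauge_le_one_iff_mem_closure h.cvx h.nhds, h.cl.closure_eq]

theorem absorbent : Absorbent ℝ M := absorbent_nhds_zero h.nhds

theorem gauge_smul_nn {a : ℝ} (ha : 0 ≤ a) (p : ℝ × ℝ) : gauge M (a • p) = a * gauge M p := by
  rw [gauge_smul_of_nonneg ha, smul_eq_mul]

theorem le_gauge (p : ℝ × ℝ) : |p.1| ≤ gauge M p ∧ |p.2| ≤ gauge M p := by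
  have key : ∀ r : ℝ, gauge M p < r → |p.1| ≤ r ∧ |p.2| ≤ r := by
    intro r hr
    have hr0 : 0 < r := (gauge_nonneg p).trans_lt hr
    have : gauge M (r⁻¹ • p) ≤ 1 := by
      rw [h.gauge_smul_nn (inv_nonneg.2 hr0.le), inv_mul_le_one₀ hr0]
      exact hr.le
    have := h.bd _ ((h.gauge_le_one_iff _).1 this)
    simp only [Prod.smul_fst, Prod.smul_snd, smul_eq_mul, abs_mul, abs_inv, abs_of_pos hr0] at this
    rwa [inv_mul_le_one₀ hr0, inv_mul_le_one₀ hr0] at this
  constructor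
  · apply le_of_forall_gt_imp_ge_of_dense
    intro r hr
    exact (key r hr).1
  · apply le_of_forall_gt_imp_ge_of_dense
    intro r hr
    exact (key r hr).2

theorem cont_ng : Continuous (ng M) := by
  unfold ng
  exact (continuous_gauge h.cvx h.nhds).comp (by fun_prop)

theorem ng_zero : ng M 0 = 1 := by
  apply le_antisymm
  · unfold ng
    rw [h.gauge_le_one_iff]
    simpa using h.e1
  · have := (h.le_gauge (1 - 0, 0)).1
    simpa [ng] using this

theorem ng_one : ng M 1 = 1 := by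
  apply le_antisymm
  · unfold ng
    rw [h.gauge_le_one_iff]
    simpa using h.e2
  · have := (h.le_gauge (1 - 1, 1)).2
    simpa [ng] using this

theorem ng_lo {t : ℝ} (h0 : 0 ≤ t) (h1 : t ≤ 1) : t ≤ ng M t := by
  have := (h.le_gauge (1 - t, t)).2
  rwa [abs_of_nonneg h0] at this

theorem ng_lo' {t : ℝ} (h0 : 0 ≤ t) (h1 : t ≤ 1) : 1 - t ≤ ng M t := by
  have := (h.le_gauge (1 - t, t)).1
  rwa [abs_of_nonneg (by simpa using h1)] at this

theorem ng_half {t : ℝ} (h0 : 0 ≤ t) (h1 : t ≤ 1) : 1 / 2 ≤ ng M t := by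
  have a := h.ng_lo h0 h1
  have b := h.ng_lo' h0 h1
  linarith

theorem ng_le_one {t : ℝ} (h0 : 0 ≤ t) (h1 : t ≤ 1) : ng M t ≤ 1 := by
  unfold ng
  rw [h.gauge_le_one_iff]
  have := h.cvx h.e1 h.e2 (a := 1 - t) (b := t) (by linarith) h0 (by ring)
  convert this using 1
  ext <;> simp

theorem ng_cv (s t : ℝ) : 2 * ng M ((s + t) / 2) ≤ ng M s + ng M t := by
  unfold ng
  have := gauge_add_le h.cvx h.absorbent (1 - s, s) (1 - t, t)
  have e : ((1 - s, s) : ℝ × ℝ) + (1 - t, t) = (2 : ℝ) • (1 - (s + t) / 2, (s + t) / 2) := by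
    ext <;> simp <;> ring
  rw [e, h.gauge_smul_nn (by norm_num)] at this
  exact this

theorem gauge_neg (p : ℝ × ℝ) : gauge M (-p) = gauge M p := by
  apply _root_.gauge_neg
  intro x hx
  exact h.sym x hx

theorem ng_lip (s t : ℝ) : |ng M s - ng M t| ≤ 2 * |s - t| := by
  have hd : gauge M (-1, 1) ≤ 2 := by
    have a := gauge_add_le h.cvx h.absorbent (-1, 0) (0, 1)
    have b : gauge M (-1, 0) ≤ 1 := (h.gauge_le_one_iff _).2 h.e1'
    have c : gauge M (0, 1) ≤ 1 := (h.gauge_le_one_iff _).2 h.e2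
    have e : ((-1, 0) : ℝ × ℝ) + (0, 1) = (-1, 1) := by ext <;> simp
    rw [e] at a
    linarith
  have key : ∀ s t : ℝ, ng M s - ng M t ≤ 2 * |s - t| := by
    intro s t
    unfold ng
    have a := gauge_add_le h.cvx h.absorbent (1 - t, t) ((s - t) • ((-1 : ℝ), (1 : ℝ)))
    have e : ((1 - t, t) : ℝ × ℝ) + (s - t) • ((-1 : ℝ), (1 : ℝ)) = (1 - s, s) := by
      ext <;> simp <;> ring
    rw [e] at a
    have b : gauge M ((s - t) • ((-1 : ℝ), (1 : ℝ))) = |s - t| * gauge M (-1, 1) := by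
      rcases le_total 0 (s - t) with hst | hst
      · rw [h.gauge_smul_nn hst, abs_of_nonneg hst]
      · have : (s - t) • ((-1 : ℝ), (1 : ℝ)) = -((-(s - t)) • ((-1 : ℝ), (1 : ℝ))) := by
          ext <;> simp
        rw [this, h.gauge_neg, h.gauge_smul_nn (by linarith), abs_of_nonpos hst]
    rw [b] at a
    have c := mul_le_mul_of_nonneg_left hd (abs_nonneg (s - t))
    linarith
  rw [abs_le]
  constructor
  · have := key t s
    rw [abs_sub_comm] at this
    linarith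
  · exact key s t

theorem inter_quad : M ∩ Quad =
    {p : ℝ × ℝ | 0 < p.1 ∧ 0 < p.2 ∧ (p.1 + p.2) * ng M (p.2 / (p.1 + p.2)) ≤ 1} := by
  ext ⟨x, y⟩
  have key : 0 < x → 0 < y → (x + y) * ng M (y / (x + y)) = gauge M (x, y) := by
    intro hx hy
    have hs : 0 < x + y := by linarith
    unfold ng
    rw [← h.gauge_smul_nn hs.le]
    congr 1
    ext
    · simp only [Prod.smul_mk, smul_eq_mul]
      field_simp
      ring
    · simp only [Prod.smul_mk, smul_eq_mul]
      field_simp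
  constructor
  · rintro ⟨hp, hx, hy⟩
    refine ⟨hx, hy, ?_⟩
    simp only
    rw [key hx hy, h.gauge_le_one_iff]
    exact hp
  · rintro ⟨hx, hy, hp⟩
    refine ⟨?_, hx, hy⟩
    simp only at hp
    rwa [key hx hy, h.gauge_le_one_iff] at hp

theorem area_quad : area (M ∩ Quad) = 1 / 2 * ∫ t in (0 : ℝ)..1, 1 / ng M t ^ 2 := by
  unfold area
  rw [h.inter_quad, vol_sector h.cont_ng (fun t h0 h1 => by linarith [h.ng_half h0 h1]),
    ENNReal.toReal_ofReal]
  apply mul_nonneg (by norm_num)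
  apply intervalIntegral.integral_nonneg zero_le_one
  intro t _
  positivity

theorem polar_sub : polar M ∩ Quad ⊆
    {q : ℝ × ℝ | 0 < q.1 ∧ 0 < q.2 ∧ ∀ t, 0 ≤ t → t ≤ 1 → (1 - t) * q.1 + t * q.2 ≤ ng M t} := by
  rintro ⟨a, b⟩ ⟨hp, ha, hb⟩
  refine ⟨ha, hb, ?_⟩
  intro t h0 h1
  have hn : 0 < ng M t := by linarith [h.ng_half h0 h1]
  have hm : (ng M t)⁻¹ • ((1 - t, t) : ℝ × ℝ) ∈ M := by
    rw [← h.gauge_le_one_iff, h.gauge_smul_nn (inv_nonneg.2 hn.le)]
    unfold ng at hn ⊢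
    rw [inv_mul_cancel₀ hn.ne']
  have := hp _ hm
  simp only [Prod.smul_fst, Prod.smul_snd, smul_eq_mul] at this
  have e : (ng M t)⁻¹ * (1 - t) * a + (ng M t)⁻¹ * t * b =
      (ng M t)⁻¹ * ((1 - t) * a + t * b) := by ring
  rw [e, inv_mul_le_one₀ hn] at this
  exact this

theorem area_polar_quad {k : ℕ} (hk : 0 < k) : area (polar M ∩ Quad) ≤
    1 - 1 / 2 * (k * ∑ i ∈ Finset.range k, (ng M ((i + 1 : ℕ) / k) - ng M ((i : ℕ) / k)) ^ 2) := by
  unfold area
  have hs := slo_sum_le hk h.ng_zero h.ng_one (fun t h0 h1 => h.ng_lo h0 h1)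
    (fun t h0 h1 => h.ng_lo' h0 h1) (fun s t _ _ _ _ => h.ng_cv s t)
  have hv := vol_polar_le hk h.ng_zero h.ng_one (fun t h0 h1 => h.ng_lo h0 h1)
    (fun t h0 h1 => h.ng_lo' h0 h1) (fun s t _ _ _ _ => h.ng_cv s t)
  apply ENNReal.toReal_le_of_le_ofReal (by linarith)
  exact (measure_mono h.polar_sub).trans hv

theorem sector : 2 * area (polar M ∩ Quad) + 2 * lam * area (M ∩ Quad) +
    1 / 2 * ∫ t in (0 : ℝ)..1, (ng M t - ss t) ^ 2 ≤
      2 * lam + 2 * lam * ∫ t in (0 : ℝ)..1, 1 / gg t := by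
  have hc1 : ContinuousOn (fun t => 1 / ng M t ^ 2) (uIcc (0 : ℝ) 1) := by
    rw [uIcc_of_le zero_le_one]
    apply ContinuousOn.div continuousOn_const (h.cont_ng.pow 2).continuousOn
    intro t ht
    have := h.ng_half ht.1 ht.2
    exact pow_ne_zero _ (by linarith)
  have hc2 : ContinuousOn (fun t => 1 / gg t) (uIcc (0 : ℝ) 1) := by
    apply ContinuousOn.div continuousOn_const continuous_gg.continuousOn
    intro t _
    exact (gg_pos t).ne'
  have hc3 : Continuous (fun t => (ng M t - ss t) ^ 2) := (h.cont_ng.sub continuous_ss).pow 2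
  have hPh : ∫ t in (0 : ℝ)..1, Ph (ng M) t = lam * (∫ t in (0 : ℝ)..1, 1 / ng M t ^ 2) +
      (2 * (1 - lam) - 2 * lam * (∫ t in (0 : ℝ)..1, 1 / gg t)) +
      1 / 2 * (∫ t in (0 : ℝ)..1, (ng M t - ss t) ^ 2) := by
    have i1 : IntervalIntegrable (fun t => lam * (1 / ng M t ^ 2)) volume 0 1 :=
      hc1.intervalIntegrable.const_mul lam
    have i2 : IntervalIntegrable (fun t => 2 * lam * (1 / gg t)) volume 0 1 :=
      hc2.intervalIntegrable.const_mul (2 * lam)
    have i3 : IntervalIntegrable (fun t => 1 / 2 * (ng M t - ss t) ^ 2) volume 0 1 :=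
      (hc3.intervalIntegrable 0 1).const_mul (1 / 2)
    have i4 : IntervalIntegrable (fun _ : ℝ => 2 * (1 - lam)) volume 0 1 :=
      continuous_const.intervalIntegrable _ _
    have e : ∫ t in (0 : ℝ)..1, Ph (ng M) t = ∫ t in (0 : ℝ)..1,
        (lam * (1 / ng M t ^ 2) + (2 * (1 - lam) - 2 * lam * (1 / gg t)) +
          1 / 2 * (ng M t - ss t) ^ 2) := by
      apply intervalIntegral.integral_congr
      intro t _
      simp only [Ph]
      ring
    rw [e, intervalIntegral.integral_add (i1.add (i4.sub i2)) i3,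
      intervalIntegral.integral_add i1 (i4.sub i2), intervalIntegral.integral_sub i4 i2,
      intervalIntegral.integral_const_mul, intervalIntegral.integral_const_mul,
      intervalIntegral.integral_const_mul, intervalIntegral.integral_const]
    simp
  have key : ∀ k : ℕ, 0 < k → 2 * area (polar M ∩ Quad) + 2 * lam * area (M ∩ Quad) +
      1 / 2 * ∫ t in (0 : ℝ)..1, (ng M t - ss t) ^ 2 ≤
      2 * lam + 2 * lam * (∫ t in (0 : ℝ)..1, 1 / gg t) + 132 / k := by
    intro k hk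
    have a1 := h.area_polar_quad hk
    have a2 := var_main h.cont_ng (fun t h0 h1 => h.ng_half h0 h1)
      (fun t h0 h1 => h.ng_le_one h0 h1) h.ng_zero h.ng_one h.ng_lip hk
    rw [hPh] at a2
    rw [h.area_quad]
    linarith
  apply le_of_forall_pos_le_add
  intro e he
  obtain ⟨k, hk⟩ := exists_nat_gt (132 / e)
  have hk0 : (0 : ℝ) < k := lt_trans (by positivity) hk
  have hk1 : 0 < k := by exact_mod_cast hk0
  have := key k hk1
  have h2 : 132 / (k : ℝ) ≤ e := by
    rw [div_le_iff₀ hk0]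
    rw [div_lt_iff₀ he] at hk
    linarith
  linarith

theorem eq_of_int (hz : ∫ t in (0 : ℝ)..1, (ng M t - ss t) ^ 2 ≤ 0) {t : ℝ} (h0 : 0 ≤ t)
    (h1 : t ≤ 1) : ng M t = ss t := by
  have hc3 : Continuous (fun t => (ng M t - ss t) ^ 2) := (h.cont_ng.sub continuous_ss).pow 2
  by_contra hne
  have : 0 < ∫ t in (0 : ℝ)..1, (ng M t - ss t) ^ 2 := by
    apply intervalIntegral.integral_pos zero_lt_one hc3.continuousOn
    · intro x _
      positivity
    · exact ⟨t, ⟨h0, h1⟩, by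
        have := sub_ne_zero.2 hne
        positivity⟩
  linarith

/-- The reflected body. -/
theorem refl : Nrm (lin (-1) 0 0 1 '' M) where
  cvx := h.cvx.linear_image _
  cl := by
    have : lin (-1) 0 0 1 '' M = (lin (-1) 0 0 1) ⁻¹' M := by
      ext ⟨x, y⟩
      constructor
      · rintro ⟨⟨a, b⟩, hab, he⟩
        simp only [lin_apply, Prod.mk.injEq] at he
        obtain ⟨rfl, rfl⟩ := he
        simpa using hab
      · intro hp
        refine ⟨_, hp, ?_⟩
        simp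
    rw [this]
    apply h.cl.preimage
    exact LinearMap.continuous_of_finiteDimensional _
  sym := by
    rintro _ ⟨p, hp, rfl⟩
    exact ⟨-p, h.sym p hp, by simp⟩
  e1 := ⟨(-1, 0), h.e1', by simp⟩
  e2 := ⟨(0, 1), h.e2, by simp⟩
  bd := by
    rintro _ ⟨p, hp, rfl⟩
    have := h.bd p hp
    simpa using this

end Nrm

theorem vol_line_x : volume {p : ℝ × ℝ | p.1 = 0} = 0 := by
  have : {p : ℝ × ℝ | p.1 = 0} = ({0} : Set ℝ) ×ˢ (univ : Set ℝ) := by
    ext; simp
  rw [this, Measure.volume_eq_prod, Measure.prod_prod]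
  simp

theorem vol_line_y : volume {p : ℝ × ℝ | p.2 = 0} = 0 := by
  have : {p : ℝ × ℝ | p.2 = 0} = (univ : Set ℝ) ×ˢ ({0} : Set ℝ) := by
    ext; simp
  rw [this, Measure.volume_eq_prod, Measure.prod_prod]
  simp

theorem measurableSet_Quad : MeasurableSet Quad :=
  (measurableSet_lt measurable_const measurable_fst).inter
    (measurableSet_lt measurable_const measurable_snd)

/-- Decomposition into quadrants. -/
theorem vol_quads {S : Set (ℝ × ℝ)} (hS : MeasurableSet S) (hs : ∀ p ∈ S, -p ∈ S) :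
    volume S = 2 * (volume (S ∩ Quad) + volume (lin (-1) 0 0 1 '' S ∩ Quad)) := by
  have hx : MeasurableSet {p : ℝ × ℝ | 0 < p.1} := measurableSet_lt measurable_const measurable_fst
  have hy : MeasurableSet {p : ℝ × ℝ | 0 < p.2} := measurableSet_lt measurable_const measurable_snd
  have s1 : volume S = volume (S ∩ {p | 0 < p.2}) + volume (S \ {p | 0 < p.2}) :=
    (measure_inter_add_sdiff S hy).symm
  have s2 : volume (S \ {p : ℝ × ℝ | 0 < p.2}) = volume (S ∩ {p : ℝ × ℝ | 0 < p.2}) := by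
    have e1 : lin (-1) 0 0 (-1) '' (S ∩ {p : ℝ × ℝ | 0 < p.2}) = S ∩ {p : ℝ × ℝ | p.2 < 0} := by
      ext ⟨x, y⟩
      constructor
      · rintro ⟨⟨a, b⟩, ⟨hab, hb⟩, he⟩
        simp only [lin_apply, Prod.mk.injEq] at he hb
        obtain ⟨rfl, rfl⟩ := he
        refine ⟨?_, ?_⟩
        · have := hs _ hab
          simpa using this
        · simpa using hb
      · rintro ⟨hp, hq⟩
        refine ⟨(-x, -y), ⟨by simpa using hs _ hp, by simpa using hq⟩, by simp⟩
    have e2 : volume (S ∩ {p : ℝ × ℝ | p.2 < 0}) = volume (S ∩ {p : ℝ × ℝ | 0 < p.2}) := by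
      rw [← e1, vol_image_lin]; norm_num
    rw [← e2]
    apply le_antisymm
    · calc volume (S \ {p : ℝ × ℝ | 0 < p.2}) ≤
          volume ((S ∩ {p : ℝ × ℝ | p.2 < 0}) ∪ {p : ℝ × ℝ | p.2 = 0}) := by
            apply measure_mono
            rintro ⟨x, y⟩ ⟨hp, hq⟩
            simp only [mem_ofPred_eq, not_lt] at hq
            rcases hq.lt_or_eq with hq | hq
            · exact Or.inl ⟨hp, hq⟩
            · exact Or.inr hq
        _ ≤ _ := measure_union_le _ _
        _ = volume (S ∩ {p : ℝ × ℝ | p.2 < 0}) := by rw [vol_line_y, add_zero]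
    · apply measure_mono
      rintro ⟨x, y⟩ ⟨hp, hq⟩
      exact ⟨hp, fun hc => absurd (show 0 < y from hc) (not_lt.2 (le_of_lt hq))⟩
  have s3 : volume (S ∩ {p : ℝ × ℝ | 0 < p.2}) =
      volume (S ∩ Quad) + volume (lin (-1) 0 0 1 '' S ∩ Quad) := by
    rw [← measure_inter_add_sdiff (S ∩ {p : ℝ × ℝ | 0 < p.2}) hx]
    congr 1
    · congr 1
      ext ⟨x, y⟩
      constructor
      · rintro ⟨⟨hp, hq⟩, hr⟩
        exact ⟨hp, hr, hq⟩
      · rintro ⟨hp, hr, hq⟩
        exact ⟨⟨hp, hq⟩, hr⟩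
    · have e1 : lin (-1) 0 0 1 '' S ∩ Quad =
          lin (-1) 0 0 1 '' ((S ∩ {p : ℝ × ℝ | 0 < p.2}) ∩ {p : ℝ × ℝ | p.1 < 0}) := by
        ext ⟨x, y⟩
        constructor
        · rintro ⟨⟨⟨a, b⟩, hab, he⟩, hx', hy'⟩
          simp only [lin_apply, Prod.mk.injEq] at he hx' hy'
          obtain ⟨rfl, rfl⟩ := he
          refine ⟨(a, b), ⟨⟨hab, ?_⟩, ?_⟩, by simp⟩
          · simpa using hy'
          · simpa using hx'
        · rintro ⟨⟨a, b⟩, ⟨⟨hab, hb⟩, ha⟩, he⟩
          simp only [lin_apply, Prod.mk.injEq] at he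
          obtain ⟨rfl, rfl⟩ := he
          refine ⟨⟨(a, b), hab, by simp⟩, ?_, ?_⟩
          · simpa using ha
          · simpa using hb
      rw [e1, vol_image_lin]
      have e2 : ENNReal.ofReal |(-1 : ℝ) * 1 - 0 * 0| = 1 := by norm_num
      rw [e2, one_mul]
      apply le_antisymm
      · calc volume ((S ∩ {p : ℝ × ℝ | 0 < p.2}) \ {p : ℝ × ℝ | 0 < p.1}) ≤
            volume (((S ∩ {p : ℝ × ℝ | 0 < p.2}) ∩ {p : ℝ × ℝ | p.1 < 0}) ∪
              {p : ℝ × ℝ | p.1 = 0}) := by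
              apply measure_mono
              rintro ⟨x, y⟩ ⟨hp, hq⟩
              simp only [mem_ofPred_eq, not_lt] at hq
              rcases hq.lt_or_eq with hq | hq
              · exact Or.inl ⟨hp, hq⟩
              · exact Or.inr hq
          _ ≤ _ := measure_union_le _ _
          _ = volume ((S ∩ {p : ℝ × ℝ | 0 < p.2}) ∩ {p : ℝ × ℝ | p.1 < 0}) := by
              rw [vol_line_x, add_zero]
      · apply measure_mono
        rintro ⟨x, y⟩ ⟨hp, hq⟩
        exact ⟨hp, fun hc => absurd (show 0 < x from hc) (not_lt.2 (le_of_lt hq))⟩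
  rw [s1, s2, s3]
  ring

theorem area_quads {S : Set (ℝ × ℝ)} (hS : MeasurableSet S) (hs : ∀ p ∈ S, -p ∈ S)
    (hfin : volume S ≠ ⊤) :
    area S = 2 * (area (S ∩ Quad) + area (lin (-1) 0 0 1 '' S ∩ Quad)) := by
  have h := vol_quads hS hs
  have f1 : volume (S ∩ Quad) ≠ ⊤ := measure_ne_top_of_subset inter_subset_left hfin
  have f2 : volume (lin (-1) 0 0 1 '' S ∩ Quad) ≠ ⊤ := by
    apply measure_ne_top_of_subset inter_subset_left
    rw [vol_image_lin]
    exact ENNReal.mul_ne_top ENNReal.ofReal_ne_top hfin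
  unfold area
  rw [h, ENNReal.toReal_mul, ENNReal.toReal_add f1 f2]
  simp

theorem polar_refl (M : Set (ℝ × ℝ)) :
    polar (lin (-1) 0 0 1 '' M) = lin (-1) 0 0 1 '' polar M := by
  ext ⟨a, b⟩
  constructor
  · intro hp
    refine ⟨(-a, b), ?_, by simp⟩
    intro x hx
    have := hp _ ⟨x, hx, rfl⟩
    simp only [lin_apply] at this
    simp only
    nlinarith
  · rintro ⟨⟨c, d⟩, hcd, he⟩
    simp only [lin_apply, Prod.mk.injEq] at he
    obtain ⟨rfl, rfl⟩ := he
    rintro _ ⟨x, hx, rfl⟩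
    have := hcd x hx
    simp only [lin_apply]
    simp only at this
    nlinarith

theorem isClosed_polar (M : Set (ℝ × ℝ)) : IsClosed (polar M) := by
  have : polar M = ⋂ x ∈ M, {y : ℝ × ℝ | x.1 * y.1 + x.2 * y.2 ≤ 1} := by
    ext y; simp [polar]
  rw [this]
  apply isClosed_biInter
  intro x _
  exact isClosed_le (by fun_prop) continuous_const

namespace Nrm

variable {M : Set (ℝ × ℝ)} (h : Nrm M)

include h

theorem polar_sym : ∀ p ∈ polar M, -p ∈ polar M := by
  intro p hp x hx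
  have := hp _ (h.sym x hx)
  simp only [Prod.fst_neg, Prod.snd_neg] at this ⊢
  nlinarith

theorem isCompact : IsCompact M := by
  apply Metric.isCompact_of_isClosed_isBounded h.cl
  rw [isBounded_iff_forall_norm_le]
  refine ⟨1, ?_⟩
  intro p hp
  rw [Prod.norm_def]
  exact max_le (h.bd p hp).1 (h.bd p hp).2

theorem polar_bd : ∀ p ∈ polar M, |p.1| ≤ 1 ∧ |p.2| ≤ 1 := by
  intro p hp
  have a1 := hp _ h.e1
  have a2 := hp _ h.e2
  have a3 := hp _ h.e1'
  have a4 := hp _ h.e2'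
  simp only at a1 a2 a3 a4
  constructor <;> rw [abs_le] <;> constructor <;> linarith

theorem isCompact_polar : IsCompact (polar M) := by
  apply Metric.isCompact_of_isClosed_isBounded (isClosed_polar M)
  rw [isBounded_iff_forall_norm_le]
  refine ⟨1, ?_⟩
  intro p hp
  rw [Prod.norm_def]
  exact max_le (h.polar_bd p hp).1 (h.polar_bd p hp).2

theorem area_M : area M = 2 * (area (M ∩ Quad) + area (lin (-1) 0 0 1 '' M ∩ Quad)) :=
  area_quads h.cl.measurableSet h.sym h.isCompact.measure_ne_top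

theorem area_polar_M : area (polar M) =
    2 * (area (polar M ∩ Quad) + area (polar (lin (-1) 0 0 1 '' M) ∩ Quad)) := by
  rw [polar_refl]
  exact area_quads (isClosed_polar M).measurableSet h.polar_sym h.isCompact_polar.measure_ne_top

end Nrm

/-- Half the integral giving the area of the extremal sector. -/
noncomputable def Ast : ℝ := 1 / 2 * ∫ t in (0 : ℝ)..1, 1 / gg t

/-- The optimal value (times `π`). -/
noncomputable def best : ℝ := 16 * lam * (1 + Ast) ^ 2

theorem area_nonneg (A : Set (ℝ × ℝ)) : 0 ≤ area A := ENNReal.toReal_nonneg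

namespace Nrm

variable {M : Set (ℝ × ℝ)} (h : Nrm M)

include h

theorem main : (area M + 4) * area (polar M) ≤ best ∧
    ((area M + 4) * area (polar M) = best → (∀ t, 0 ≤ t → t ≤ 1 → ng M t = ss t) ∧
      ∀ t, 0 ≤ t → t ≤ 1 → ng (lin (-1) 0 0 1 '' M) t = ss t) := by
  have s1 := h.sector
  have s2 := h.refl.sector
  have hl := lam_pos
  have e : (∫ t in (0 : ℝ)..1, 1 / gg t) = 2 * Ast := by unfold Ast; ring
  rw [e] at s1 s2
  have d1 : 0 ≤ ∫ t in (0 : ℝ)..1, (ng M t - ss t) ^ 2 :=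
    intervalIntegral.integral_nonneg zero_le_one (fun t _ => sq_nonneg _)
  have d2 : 0 ≤ ∫ t in (0 : ℝ)..1, (ng (lin (-1) 0 0 1 '' M) t - ss t) ^ 2 :=
    intervalIntegral.integral_nonneg zero_le_one (fun t _ => sq_nonneg _)
  rw [h.area_M, h.area_polar_M]
  set a1 := area (M ∩ Quad)
  set a2 := area (lin (-1) 0 0 1 '' M ∩ Quad)
  set p1 := area (polar M ∩ Quad)
  set p2 := area (polar (lin (-1) 0 0 1 '' M) ∩ Quad)
  set i1 := ∫ t in (0 : ℝ)..1, (ng M t - ss t) ^ 2
  set i2 := ∫ t in (0 : ℝ)..1, (ng (lin (-1) 0 0 1 '' M) t - ss t) ^ 2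
  have ha1 : 0 ≤ a1 := area_nonneg _
  have ha2 : 0 ≤ a2 := area_nonneg _
  have hX : 0 < a1 + a2 + 2 := by linarith
  have hbound : (2 * (a1 + a2) + 4) * (2 * (p1 + p2)) + (a1 + a2 + 2) * (i1 + i2) ≤
      4 * lam * (a1 + a2 + 2) * (4 * (1 + Ast) - (a1 + a2 + 2)) := by
    have := mul_le_mul_of_nonneg_left (add_le_add s1 s2) (by linarith : 0 ≤ 2 * (a1 + a2 + 2))
    nlinarith
  have hq : 4 * lam * (a1 + a2 + 2) * (4 * (1 + Ast) - (a1 + a2 + 2)) ≤ best := by
    unfold best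
    nlinarith [mul_nonneg hl.le (sq_nonneg (2 * (1 + Ast) - (a1 + a2 + 2)))]
  have hi : 0 ≤ (a1 + a2 + 2) * (i1 + i2) := mul_nonneg hX.le (by linarith)
  refine ⟨by linarith, ?_⟩
  intro heq
  have h0 : (a1 + a2 + 2) * (i1 + i2) ≤ 0 := by linarith
  have h3 : i1 + i2 ≤ 0 := by
    by_contra hcon
    have := mul_pos hX (not_le.1 hcon)
    linarith
  exact ⟨fun t h0 h1 => h.eq_of_int (by linarith) h0 h1,
    fun t h0 h1 => h.refl.eq_of_int (by linarith) h0 h1⟩

end Nrm

end H32.HT
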