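import Mathlib
import Pool.Agent.H32.HT.Norm

set_option autoImplicit false

/-! The extremal body. -/

namespace H32.HT

open MeasureTheory Set Topology

/-- The normalised bodies bounded by four elliptic arcs. -/
def Mst (c : ℝ) : Set (ℝ × ℝ) := {p | p.1 ^ 2 + p.2 ^ 2 + 2 * c * |p.1 * p.2| ≤ 1}

theorem mem_Mst {c : ℝ} (hc : 0 ≤ c) (p : ℝ × ℝ) : p ∈ Mst c ↔
    p.1 ^ 2 + p.2 ^ 2 + 2 * c * (p.1 * p.2) ≤ 1 ∧ p.1 ^ 2 + p.2 ^ 2 - 2 * c * (p.1 * p.2) ≤ 1 := by
  unfold Mst
  simp only [mem_ofPred_eq]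
  rcases le_total 0 (p.1 * p.2) with h | h
  · rw [abs_of_nonneg h]
    constructor
    · intro h1
      exact ⟨h1, by nlinarith [mul_nonneg hc h]⟩
    · intro h1
      exact h1.1
  · rw [abs_of_nonpos h]
    constructor
    · intro h1
      exact ⟨by nlinarith [mul_nonneg hc (neg_nonneg.2 h)], by linarith⟩
    · intro h1
      linarith [h1.2]

theorem ell_convex {c : ℝ} (h0 : -1 ≤ c) (h1 : c ≤ 1) :
    Convex ℝ {p : ℝ × ℝ | p.1 ^ 2 + p.2 ^ 2 + 2 * c * (p.1 * p.2) ≤ 1} := by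
  rintro ⟨x, y⟩ hp ⟨z, w⟩ hq a b ha hb hab
  simp only [mem_ofPred_eq, Prod.smul_mk, Prod.mk_add_mk, smul_eq_mul] at hp hq ⊢
  have hpsd : 0 ≤ (x - z) ^ 2 + (y - w) ^ 2 + 2 * c * ((x - z) * (y - w)) := by
    nlinarith [mul_nonneg (by linarith : 0 ≤ 1 + c) (sq_nonneg ((x - z) + (y - w))),
      mul_nonneg (by linarith : 0 ≤ 1 - c) (sq_nonneg ((x - z) - (y - w)))]
  have e : (a * x + b * z) ^ 2 + (a * y + b * w) ^ 2 + 2 * c * ((a * x + b * z) * (a * y + b * w)) =
      (a * (x ^ 2 + y ^ 2 + 2 * c * (x * y)) + b * (z ^ 2 + w ^ 2 + 2 * c * (z * w))) * (a + b) -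
      a * b * ((x - z) ^ 2 + (y - w) ^ 2 + 2 * c * ((x - z) * (y - w))) := by ring
  rw [e, hab, mul_one]
  have h2 := mul_nonneg (mul_nonneg ha hb) hpsd
  have h3 := mul_le_mul_of_nonneg_left hp ha
  have h4 := mul_le_mul_of_nonneg_left hq hb
  nlinarith

theorem nrm_Mst {c : ℝ} (h0 : 0 ≤ c) (h1 : c ≤ 1) : Nrm (Mst c) where
  cvx := by
    have e : Mst c = {p : ℝ × ℝ | p.1 ^ 2 + p.2 ^ 2 + 2 * c * (p.1 * p.2) ≤ 1} ∩
        {p : ℝ × ℝ | p.1 ^ 2 + p.2 ^ 2 + 2 * (-c) * (p.1 * p.2) ≤ 1} := by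
      ext p
      rw [mem_Mst h0]
      simp only [mem_inter_iff, mem_ofPred_eq]
      constructor
      · rintro ⟨a, b⟩; exact ⟨a, by linarith⟩
      · rintro ⟨a, b⟩; exact ⟨a, by linarith⟩
    rw [e]
    exact (ell_convex (by linarith) h1).inter (ell_convex (by linarith) (by linarith))
  cl := isClosed_le (by fun_prop) continuous_const
  sym := by
    intro p hp
    unfold Mst at hp ⊢
    simpa using hp
  e1 := by simp [Mst]
  e2 := by simp [Mst]
  bd := by
    intro p hp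
    unfold Mst at hp
    simp only [mem_ofPred_eq] at hp
    have h2 : 0 ≤ 2 * c * |p.1 * p.2| := by positivity
    constructor
    · rw [← sq_le_one_iff_abs_le_one]
      nlinarith [sq_nonneg p.2]
    · rw [← sq_le_one_iff_abs_le_one]
      nlinarith [sq_nonneg p.1]

theorem refl_Mst (c : ℝ) : lin (-1) 0 0 1 '' Mst c = Mst c := by
  ext ⟨x, y⟩
  constructor
  · rintro ⟨⟨a, b⟩, hab, he⟩
    simp only [lin_apply, Prod.mk.injEq] at he
    obtain ⟨rfl, rfl⟩ := he
    unfold Mst at hab ⊢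
    simpa using hab
  · intro hp
    refine ⟨(-x, y), ?_, by simp⟩
    unfold Mst at hp ⊢
    simpa using hp

theorem nrm_ext : Nrm (Mst lam) := nrm_Mst lam_pos.le lam_lt_one.le

theorem ng_Mst {t : ℝ} (h0 : 0 ≤ t) (h1 : t ≤ 1) : ng (Mst lam) t = ss t := by
  have hh := nrm_ext
  have hn : 0 < ng (Mst lam) t := by linarith [hh.ng_half h0 h1]
  have hs := ss_pos t
  have hg : (1 - t) ^ 2 + t ^ 2 + 2 * lam * |(1 - t) * t| = gg t := by
    rw [abs_of_nonneg (mul_nonneg (sub_nonneg.2 h1) h0)]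
    unfold gg; ring
  have hmem : ∀ r : ℝ, 0 < r → (r⁻¹ • ((1 - t, t) : ℝ × ℝ) ∈ Mst lam ↔ gg t ≤ r ^ 2) := by
    intro r hr
    have e : (r⁻¹ * (1 - t)) ^ 2 + (r⁻¹ * t) ^ 2 + 2 * lam * |r⁻¹ * (1 - t) * (r⁻¹ * t)| =
        gg t / r ^ 2 := by
      rw [← hg]
      have : r⁻¹ * (1 - t) * (r⁻¹ * t) = (r⁻¹) ^ 2 * ((1 - t) * t) := by ring
      rw [this, abs_mul, abs_of_nonneg (sq_nonneg r⁻¹)]
      field_simp
    unfold Mst
    simp only [mem_ofPred_eq, Prod.smul_mk, smul_eq_mul]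
    rw [e, div_le_one (by positivity)]
  apply le_antisymm
  · have h2 : (ss t)⁻¹ • ((1 - t, t) : ℝ × ℝ) ∈ Mst lam := (hmem _ hs).2 (ss_sq t).ge
    rw [← hh.gauge_le_one_iff, hh.gauge_smul_nn (inv_nonneg.2 hs.le), inv_mul_le_one₀ hs] at h2
    exact h2
  · have h2 : (ng (Mst lam) t)⁻¹ • ((1 - t, t) : ℝ × ℝ) ∈ Mst lam := by
      rw [← hh.gauge_le_one_iff, hh.gauge_smul_nn (inv_nonneg.2 hn.le)]
      unfold ng at hn ⊢
      rw [inv_mul_cancel₀ hn.ne']
    have h3 := (hmem _ hn).1 h2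
    unfold ss
    exact Real.sqrt_le_iff.2 ⟨hn.le, h3⟩

namespace Nrm

variable {M : Set (ℝ × ℝ)} (h : Nrm M)

include h

theorem mem_of_ng (hn : ∀ t, 0 ≤ t → t ≤ 1 → ng M t = ss t) {x y : ℝ} (hx : 0 ≤ x) (hy : 0 ≤ y) :
    (x, y) ∈ M ↔ x ^ 2 + y ^ 2 + 2 * lam * (x * y) ≤ 1 := by
  rcases (add_nonneg hx hy).eq_or_lt with h0 | h0
  · have hx0 : x = 0 := by linarith
    have hy0 : y = 0 := by linarith
    subst hx0 hy0
    have : ((0 : ℝ), (0 : ℝ)) ∈ M := h.mem_x (by norm_num) (by norm_num)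
    simp [this]
  · have e : ((x, y) : ℝ × ℝ) = (x + y) • (1 - y / (x + y), y / (x + y)) := by
      ext
      · simp only [Prod.smul_mk, smul_eq_mul]
        field_simp
        ring
      · simp only [Prod.smul_mk, smul_eq_mul]
        field_simp
    have t0 : 0 ≤ y / (x + y) := by positivity
    have t1 : y / (x + y) ≤ 1 := by rw [div_le_one h0]; linarith
    rw [← h.gauge_le_one_iff, e, h.gauge_smul_nn h0.le]
    have e2 := hn _ t0 t1
    unfold ng at e2
    rw [e2]
    have e3 : (x + y) * ss (y / (x + y)) ≤ 1 ↔ ((x + y) * ss (y / (x + y))) ^ 2 ≤ 1 := by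
      have hp : 0 ≤ (x + y) * ss (y / (x + y)) := mul_nonneg h0.le (ss_pos _).le
      rw [sq_le_one_iff₀ hp]
    rw [e3, mul_pow, ss_sq]
    have e4 : (x + y) ^ 2 * gg (y / (x + y)) = x ^ 2 + y ^ 2 + 2 * lam * (x * y) := by
      unfold gg
      field_simp
      ring
    rw [e4]

theorem eq_Mst (hn : ∀ t, 0 ≤ t → t ≤ 1 → ng M t = ss t)
    (hn' : ∀ t, 0 ≤ t → t ≤ 1 → ng (lin (-1) 0 0 1 '' M) t = ss t) : M = Mst lam := by
  have up : ∀ x y : ℝ, 0 ≤ y → ((x, y) ∈ M ↔ (x, y) ∈ Mst lam) := by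
    intro x y hy
    rcases le_total 0 x with hx | hx
    · rw [h.mem_of_ng hn hx hy]
      unfold Mst
      simp only [mem_ofPred_eq]
      rw [abs_of_nonneg (mul_nonneg hx hy)]
    · have h1 : (x, y) ∈ M ↔ (-x, y) ∈ lin (-1) 0 0 1 '' M := by
        constructor
        · intro hp
          exact ⟨(x, y), hp, by simp⟩
        · rintro ⟨⟨a, b⟩, hab, he⟩
          simp only [lin_apply, Prod.mk.injEq] at he
          obtain ⟨ha, hb⟩ := he
          have ha' : a = x := by linarith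
          have hb' : b = y := by linarith
          rw [← ha', ← hb']
          exact hab
      rw [h1, h.refl.mem_of_ng hn' (neg_nonneg.2 hx) hy]
      unfold Mst
      simp only [mem_ofPred_eq]
      rw [abs_of_nonpos (mul_nonpos_of_nonpos_of_nonneg hx hy), neg_sq, neg_mul]
  ext ⟨x, y⟩
  rcases le_total 0 y with hy | hy
  · exact up x y hy
  · have h1 : (x, y) ∈ M ↔ (-x, -y) ∈ M :=
      ⟨fun hp => by simpa using h.sym _ hp, fun hp => by simpa using h.sym _ hp⟩
    have h2 : (x, y) ∈ Mst lam ↔ (-x, -y) ∈ Mst lam :=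
      ⟨fun hp => by simpa using nrm_ext.sym _ hp, fun hp => by simpa using nrm_ext.sym _ hp⟩
    rw [h1, h2]
    exact up _ _ (neg_nonneg.2 hy)

/-- The normalised theorem. -/
theorem le_best : (area M + 4) * area (polar M) ≤ best := h.main.1

theorem eq_best (he : (area M + 4) * area (polar M) = best) : M = Mst lam := by
  obtain ⟨h1, h2⟩ := h.main.2 he
  exact h.eq_Mst h1 h2

end Nrm

theorem Ast_pos : 0 ≤ Ast := by
  unfold Ast
  apply mul_nonneg (by norm_num)
  apply intervalIntegral.integral_nonneg zero_le_one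
  intro t _
  have := gg_pos t
  positivity

theorem area_Mst_quad : area (Mst lam ∩ Quad) = Ast := by
  rw [nrm_ext.area_quad, Ast]
  congr 1
  apply intervalIntegral.integral_congr
  intro t ht
  rw [uIcc_of_le zero_le_one] at ht
  simp only
  rw [ng_Mst ht.1 ht.2, ss_sq]

theorem area_Mst : area (Mst lam) = 4 * Ast := by
  rw [nrm_ext.area_M, refl_Mst, area_Mst_quad]
  ring

theorem vol_T1 : volume ({p : ℝ × ℝ | 0 ≤ p.1 ∧ p.1 ≤ 1 ∧ 0 ≤ p.2 ∧ p.2 ≤ lam * p.1}) =
    ENNReal.ofReal (lam / 2) := by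
  have := vol_region (f := fun _ => 0) (g := fun x => lam * x) (by fun_prop) (by fun_prop)
    (zero_le_one (α := ℝ)) (fun x h0 _ => mul_nonneg lam_pos.le h0)
  rw [this]
  congr 1
  simp only [sub_zero]
  rw [intervalIntegral.integral_const_mul, integral_id]
  ring

theorem polar_of_abs {a b : ℝ} (ha : 0 ≤ a) (hb : 0 ≤ b)
    (h : ∀ x y : ℝ, 0 ≤ x → 0 ≤ y → x ^ 2 + y ^ 2 + 2 * lam * (x * y) ≤ 1 → x * a + y * b ≤ 1) :
    (a, b) ∈ polar (Mst lam) := by
  rintro ⟨x, y⟩ hp
  unfold Mst at hp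
  simp only [mem_ofPred_eq] at hp
  have h1 := h |x| |y| (abs_nonneg x) (abs_nonneg y) (by rw [sq_abs, sq_abs, ← abs_mul]; exact hp)
  have h2 : x * a ≤ |x| * a := mul_le_mul_of_nonneg_right (le_abs_self x) ha
  have h3 : y * b ≤ |y| * b := mul_le_mul_of_nonneg_right (le_abs_self y) hb
  simp only
  linarith

theorem area_polar_Mst_quad : lam * (1 + Ast) ≤ area (polar (Mst lam) ∩ Quad) := by
  have hl := lam_pos
  have hl1 := lam_lt_one
  have hsq := lam_sq
  set T1 : Set (ℝ × ℝ) := {p : ℝ × ℝ | 0 ≤ p.1 ∧ p.1 ≤ 1 ∧ 0 ≤ p.2 ∧ p.2 ≤ lam * p.1} with hT1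
  set T2 : Set (ℝ × ℝ) := lin 0 1 1 0 '' T1 with hT2
  set E : Set (ℝ × ℝ) := lin 1 lam lam 1 '' (Mst lam ∩ Quad) with hE
  have vT1 : volume T1 = ENNReal.ofReal (lam / 2) := vol_T1
  have vT2 : volume T2 = ENNReal.ofReal (lam / 2) := by
    rw [hT2, vol_image_lin, vT1]; norm_num
  have vE : volume E = ENNReal.ofReal (lam * Ast) := by
    rw [hE, vol_image_lin]
    have : (1 : ℝ) * 1 - lam * lam = lam := by linarith
    rw [this, abs_of_pos hl]
    have h2 : volume (Mst lam ∩ Quad) = ENNReal.ofReal Ast := by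
      rw [← area_Mst_quad]
      unfold area
      rw [ENNReal.ofReal_toReal]
      exact measure_ne_top_of_subset inter_subset_left nrm_ext.isCompact.measure_ne_top
    rw [h2, ← ENNReal.ofReal_mul hl.le]
  have mT1 : MeasurableSet T1 := by
    apply IsClosed.measurableSet
    apply IsClosed.and (isClosed_le continuous_const continuous_fst)
    apply IsClosed.and (isClosed_le continuous_fst continuous_const)
    apply IsClosed.and (isClosed_le continuous_const continuous_snd)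
    exact isClosed_le continuous_snd (by fun_prop)
  have eT2 : T2 = {p : ℝ × ℝ | 0 ≤ p.2 ∧ p.2 ≤ 1 ∧ 0 ≤ p.1 ∧ p.1 ≤ lam * p.2} := by
    ext ⟨x, y⟩
    constructor
    · rintro ⟨⟨a, b⟩, hab, he⟩
      simp only [lin_apply, Prod.mk.injEq] at he
      obtain ⟨h1, h2⟩ := he
      have ha : a = y := by linarith
      have hb : b = x := by linarith
      subst ha hb
      exact hab
    · intro hp
      exact ⟨(y, x), hp, by simp⟩
  have mT2 : MeasurableSet T2 := by
    rw [eT2]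
    apply IsClosed.measurableSet
    apply IsClosed.and (isClosed_le continuous_const continuous_snd)
    apply IsClosed.and (isClosed_le continuous_snd continuous_const)
    apply IsClosed.and (isClosed_le continuous_const continuous_fst)
    exact isClosed_le continuous_fst (by fun_prop)
  have hsub : E ∪ (T1 ∩ Quad) ∪ (T2 ∩ Quad) ⊆ polar (Mst lam) ∩ Quad := by
    rintro ⟨a, b⟩ ((hp | hp) | hp)
    · obtain ⟨⟨x', y'⟩, ⟨hm, hx', hy'⟩, he⟩ := hp
      simp only [lin_apply, Prod.mk.injEq] at he hx' hy'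
      obtain ⟨rfl, rfl⟩ := he
      have ha : 0 < 1 * x' + lam * y' := by positivity
      have hb : 0 < lam * x' + 1 * y' := by positivity
      refine ⟨?_, ha, hb⟩
      apply polar_of_abs ha.le hb.le
      intro x y hx hy hxy
      have hm' := ((mem_Mst hl.le _).1 hm).1
      simp only at hm'
      have hpsd : 0 ≤ (x - x') ^ 2 + (y - y') ^ 2 + 2 * lam * ((x - x') * (y - y')) := by
        nlinarith [mul_nonneg (by linarith : 0 ≤ 1 + lam) (sq_nonneg ((x - x') + (y - y'))),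
          mul_nonneg (by linarith : 0 ≤ 1 - lam) (sq_nonneg ((x - x') - (y - y')))]
      nlinarith
    · obtain ⟨⟨h1, h2, h3, h4⟩, ha, hb⟩ := hp
      simp only at h1 h2 h3 h4 ha hb
      refine ⟨?_, ha, hb⟩
      apply polar_of_abs ha.le hb.le
      intro x y hx hy hxy
      have k1 : x * a + y * b ≤ a * (x + lam * y) := by nlinarith [mul_le_mul_of_nonneg_left h4 hy]
      have k2 : a * (x + lam * y) ≤ 1 * (x + lam * y) :=
        mul_le_mul_of_nonneg_right h2 (by positivity)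
      have k3 : x + lam * y ≤ 1 := by
        have : (x + lam * y) ^ 2 ≤ 1 := by nlinarith [mul_nonneg hl.le (sq_nonneg y)]
        nlinarith [sq_nonneg (x + lam * y)]
      linarith
    · obtain ⟨h0, ha, hb⟩ := hp
      rw [eT2] at h0
      obtain ⟨h1, h2, h3, h4⟩ := h0
      simp only at h1 h2 h3 h4 ha hb
      refine ⟨?_, ha, hb⟩
      apply polar_of_abs ha.le hb.le
      intro x y hx hy hxy
      have k1 : x * a + y * b ≤ b * (y + lam * x) := by nlinarith [mul_le_mul_of_nonneg_left h4 hx]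
      have k2 : b * (y + lam * x) ≤ 1 * (y + lam * x) :=
        mul_le_mul_of_nonneg_right h2 (by positivity)
      have k3 : y + lam * x ≤ 1 := by
        have : (y + lam * x) ^ 2 ≤ 1 := by nlinarith [mul_nonneg hl.le (sq_nonneg x)]
        nlinarith [sq_nonneg (y + lam * x)]
      linarith
  have d1 : Disjoint E (T1 ∩ Quad) := by
    rw [Set.disjoint_left]
    rintro ⟨a, b⟩ ⟨⟨x', y'⟩, ⟨hm, hx', hy'⟩, he⟩ ⟨⟨h1, h2, h3, h4⟩, ha, hb⟩
    simp only [lin_apply, Prod.mk.injEq] at he hx' hy' h1 h2 h3 h4 ha hb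
    obtain ⟨rfl, rfl⟩ := he
    nlinarith [mul_pos hl hy']
  have d2 : Disjoint (E ∪ (T1 ∩ Quad)) (T2 ∩ Quad) := by
    rw [Set.disjoint_left]
    rintro ⟨a, b⟩ hp ⟨h0, ha, hb⟩
    rw [eT2] at h0
    obtain ⟨h1, h2, h3, h4⟩ := h0
    simp only at h1 h2 h3 h4 ha hb
    rcases hp with hp | hp
    · obtain ⟨⟨x', y'⟩, ⟨hm, hx', hy'⟩, he⟩ := hp
      simp only [lin_apply, Prod.mk.injEq] at he hx' hy'
      obtain ⟨rfl, rfl⟩ := he
      nlinarith [mul_pos hl hx']
    · obtain ⟨⟨k1, k2, k3, k4⟩, _, _⟩ := hp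
      simp only at k1 k2 k3 k4
      nlinarith
  have vol1 : ∀ T : Set (ℝ × ℝ), (∀ p ∈ T, 0 ≤ p.1 ∧ 0 ≤ p.2) → volume T ≤ volume (T ∩ Quad) := by
    intro T hT
    calc volume T ≤ volume ((T ∩ Quad) ∪ ({p : ℝ × ℝ | p.1 = 0} ∪ {p : ℝ × ℝ | p.2 = 0})) := by
          apply measure_mono
          rintro ⟨x, y⟩ hp
          obtain ⟨hx, hy⟩ := hT _ hp
          rcases hx.eq_or_lt with h | hx
          · exact Or.inr (Or.inl h.symm)
          · rcases hy.eq_or_lt with h | hy
            · exact Or.inr (Or.inr h.symm)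
            · exact Or.inl ⟨hp, hx, hy⟩
      _ ≤ volume (T ∩ Quad) + volume ({p : ℝ × ℝ | p.1 = 0} ∪ {p : ℝ × ℝ | p.2 = 0}) :=
          measure_union_le _ _
      _ ≤ volume (T ∩ Quad) + (volume {p : ℝ × ℝ | p.1 = 0} + volume {p : ℝ × ℝ | p.2 = 0}) := by
          gcongr
          exact measure_union_le _ _
      _ = volume (T ∩ Quad) := by rw [vol_line_x, vol_line_y]; simp
  have hv : ENNReal.ofReal (lam * (1 + Ast)) ≤ volume (polar (Mst lam) ∩ Quad) := by
    calc ENNReal.ofReal (lam * (1 + Ast)) = ENNReal.ofReal (lam * Ast) +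
          ENNReal.ofReal (lam / 2) + ENNReal.ofReal (lam / 2) := by
          rw [← ENNReal.ofReal_add, ← ENNReal.ofReal_add]
          · congr 1; ring
          · have := mul_nonneg hl.le Ast_pos
            linarith
          · linarith
          · exact mul_nonneg hl.le Ast_pos
          · linarith
      _ ≤ volume E + volume (T1 ∩ Quad) + volume (T2 ∩ Quad) := by
          rw [vE]
          gcongr
          · rw [← vT1]
            exact vol1 T1 (fun p hp => ⟨hp.1, hp.2.2.1⟩)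
          · rw [← vT2]
            apply vol1 T2
            intro p hp
            rw [eT2] at hp
            exact ⟨hp.2.2.1, hp.1⟩
      _ = volume (E ∪ (T1 ∩ Quad) ∪ (T2 ∩ Quad)) := by
          rw [measure_union d2 (mT2.inter measurableSet_Quad),
            measure_union d1 (mT1.inter measurableSet_Quad)]
      _ ≤ _ := measure_mono hsub
  unfold area
  apply (ENNReal.ofReal_le_iff_le_toReal _).1 hv
  exact measure_ne_top_of_subset inter_subset_left nrm_ext.isCompact_polar.measure_ne_top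

theorem Mst_best : (area (Mst lam) + 4) * area (polar (Mst lam)) = best := by
  apply le_antisymm nrm_ext.le_best
  have h1 := area_polar_Mst_quad
  have h2 := nrm_ext.area_polar_M
  rw [refl_Mst] at h2
  rw [area_Mst]
  unfold best
  have h3 : 4 * (lam * (1 + Ast)) ≤ area (polar (Mst lam)) := by linarith
  have h4 := mul_le_mul_of_nonneg_left h3 (by linarith [Ast_pos] : 0 ≤ 4 * Ast + 4)
  nlinarith

theorem best_pos : 0 < best := by
  unfold best
  have := lam_pos
  have := Ast_pos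
  positivity

theorem Mst_inj {c : ℝ} (h0 : 0 ≤ c) (he : Mst c = Mst lam) : c = lam := by
  have key : ∀ c d : ℝ, 0 ≤ c → 0 ≤ d → Mst c ⊆ Mst d → d ≤ c := by
    intro c d hc hd hsub
    have hs : 0 < 2 + 2 * c := by linarith
    set s := Real.sqrt (1 / (2 + 2 * c)) with hsdef
    have hs2 : s ^ 2 = 1 / (2 + 2 * c) := Real.sq_sqrt (by positivity)
    have hm : ((s, s) : ℝ × ℝ) ∈ Mst c := by
      unfold Mst
      simp only [mem_ofPred_eq]
      rw [abs_of_nonneg (by nlinarith), ← sq, hs2]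
      apply le_of_eq
      field_simp
      ring
    have hm2 := hsub hm
    unfold Mst at hm2
    simp only [mem_ofPred_eq] at hm2
    rw [abs_of_nonneg (by nlinarith), ← sq, hs2] at hm2
    have : (2 + 2 * d) * (1 / (2 + 2 * c)) ≤ 1 := by linarith
    rw [mul_one_div, div_le_one hs] at this
    linarith
  exact le_antisymm (key lam c lam_pos.le h0 he.ge) (key c lam h0 lam_pos.le he.le)

end H32.HT
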