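import Mathlib
import Pool.Agent.H32.HT.Ext

set_option autoImplicit false

/-! General bodies: slices, sweeping, difference bodies. -/

namespace H32.HT

open MeasureTheory Set Topology

/-- The determinant of two vectors of the plane. -/
def dt (p q : ℝ × ℝ) : ℝ := p.1 * q.2 - p.2 * q.1

/-- The unit ball of the relative norm. -/
def relBall (K : Set (ℝ × ℝ)) : Set (ℝ × ℝ) := {z | ∃ x ∈ K, ∃ y ∈ K, z = (1 / 2 : ℝ) • (x - y)}

/-- `K` swept along the segment from `0` to `p`. -/
def sweep (K : Set (ℝ × ℝ)) (p : ℝ × ℝ) : Set (ℝ × ℝ) :=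
  {z | ∃ x ∈ K, ∃ t : ℝ, 0 ≤ t ∧ t ≤ 1 ∧ z = x + t • p}

theorem hull_eq_sweep {K : Set (ℝ × ℝ)} (hK : Convex ℝ K) (hne : K.Nonempty) (p : ℝ × ℝ) :
    convexHull ℝ (K ∪ (fun x => p + x) '' K) = sweep K p := by
  have hK2 : Convex ℝ ((fun x => p + x) '' K) := hK.translate p
  rw [hK.convexHull_union hK2 hne (hne.image _)]
  ext z
  rw [mem_convexJoin]
  constructor
  · rintro ⟨x, hx, _, ⟨y, hy, rfl⟩, hz⟩
    rw [segment_eq_image] at hz
    obtain ⟨t, ⟨h0, h1⟩, rfl⟩ := hz
    refine ⟨(1 - t) • x + t • y, hK hx hy (by linarith) h0 (by ring), t, h0, h1, ?_⟩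
    simp only [smul_add]
    abel
  · rintro ⟨x, hx, t, h0, h1, rfl⟩
    refine ⟨x, hx, p + x, ⟨x, hx, rfl⟩, ?_⟩
    rw [segment_eq_image]
    refine ⟨t, ⟨h0, h1⟩, ?_⟩
    simp only [smul_add, sub_smul, one_smul]
    abel

/-- Horizontal slices. -/
def sl (K : Set (ℝ × ℝ)) (y : ℝ) : Set ℝ := {x | (x, y) ∈ K}

theorem sl_compact {K : Set (ℝ × ℝ)} (hc : IsCompact K) (y : ℝ) : IsCompact (sl K y) := by
  have h1 : IsClosed (sl K y) := hc.isClosed.preimage (by fun_prop : Continuous fun x : ℝ => (x, y))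
  have h2 : sl K y ⊆ Prod.fst '' K := by
    intro x hx
    exact ⟨(x, y), hx, rfl⟩
  exact (hc.image continuous_fst).of_isClosed_subset h1 h2

theorem sl_convex {K : Set (ℝ × ℝ)} (hK : Convex ℝ K) (y : ℝ) : Convex ℝ (sl K y) := by
  intro x hx z hz a b ha hb hab
  have := hK hx hz ha hb hab
  have e : a • ((x, y) : ℝ × ℝ) + b • (z, y) = (a • x + b • z, y) := by
    ext
    · simp
    · simp only [Prod.snd_add, Prod.smul_snd, smul_eq_mul]
      rw [← add_mul, hab, one_mul]
  rw [e] at this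
  exact this

theorem sl_eq_Icc {K : Set (ℝ × ℝ)} (hK : Convex ℝ K) (hc : IsCompact K) {y : ℝ}
    (hne : (sl K y).Nonempty) : sl K y = Icc (sInf (sl K y)) (sSup (sl K y)) :=
  eq_Icc_of_connected_compact ⟨hne, (sl_convex hK y).isPreconnected⟩ (sl_compact hc y)

theorem sl_le {K : Set (ℝ × ℝ)} (hK : Convex ℝ K) (hc : IsCompact K) {y : ℝ}
    (hne : (sl K y).Nonempty) : sInf (sl K y) ≤ sSup (sl K y) := by
  obtain ⟨x, hx⟩ := hne
  have h := hx
  rw [sl_eq_Icc hK hc ⟨x, hx⟩] at h
  exact h.1.trans h.2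

theorem vol_slices {K : Set (ℝ × ℝ)} (hc : MeasurableSet K) :
    volume K = ∫⁻ y, volume (sl K y) := by
  rw [Measure.volume_eq_prod, Measure.prod_apply_symm hc]
  rfl

theorem sweep_compact {K : Set (ℝ × ℝ)} (hc : IsCompact K) (p : ℝ × ℝ) :
    IsCompact (sweep K p) := by
  have : sweep K p = (fun q : (ℝ × ℝ) × ℝ => q.1 + q.2 • p) '' (K ×ˢ Icc (0 : ℝ) 1) := by
    ext z
    constructor
    · rintro ⟨x, hx, t, h0, h1, rfl⟩
      exact ⟨(x, t), ⟨hx, h0, h1⟩, rfl⟩
    · rintro ⟨⟨x, t⟩, ⟨hx, h0, h1⟩, rfl⟩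
      exact ⟨x, hx, t, h0, h1, rfl⟩
  rw [this]
  exact (hc.prod isCompact_Icc).image (by fun_prop)

theorem proj_slice {K : Set (ℝ × ℝ)} (hK : Convex ℝ K) {z1 z2 : ℝ × ℝ} (h1 : z1 ∈ K)
    (h2 : z2 ∈ K) (hmax : ∀ z ∈ K, z.2 ≤ z1.2) (hmin : ∀ z ∈ K, z2.2 ≤ z.2) (y : ℝ) :
    (sl K y).Nonempty ↔ y ∈ Icc z2.2 z1.2 := by
  constructor
  · rintro ⟨x, hx⟩
    exact ⟨hmin _ hx, hmax _ hx⟩
  · rintro ⟨ha, hb⟩
    rcases eq_or_lt_of_le (ha.trans hb) with he | hlt
    · refine ⟨z1.1, ?_⟩
      have : y = z1.2 := by linarith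
      rw [this]
      exact h1
    · have hd : 0 < z1.2 - z2.2 := by linarith
      have := hK h1 h2 (a := (y - z2.2) / (z1.2 - z2.2)) (b := (z1.2 - y) / (z1.2 - z2.2))
        (div_nonneg (by linarith) hd.le) (div_nonneg (by linarith) hd.le)
        (by rw [← add_div]; rw [div_eq_one_iff_eq hd.ne']; ring)
      refine ⟨(((y - z2.2) / (z1.2 - z2.2)) • z1 + ((z1.2 - y) / (z1.2 - z2.2)) • z2).1, ?_⟩
      have e : (((y - z2.2) / (z1.2 - z2.2)) • z1 + ((z1.2 - y) / (z1.2 - z2.2)) • z2) =
          ((((y - z2.2) / (z1.2 - z2.2)) • z1 + ((z1.2 - y) / (z1.2 - z2.2)) • z2).1, y) := by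
        ext
        · rfl
        · simp only [Prod.snd_add, Prod.smul_snd, smul_eq_mul]
          field_simp
          ring
      rw [e] at this
      exact this

theorem vol_sweep_e1 {K : Set (ℝ × ℝ)} (hK : Convex ℝ K) (hc : IsCompact K) {z1 z2 : ℝ × ℝ}
    (h1 : z1 ∈ K) (h2 : z2 ∈ K) (hmax : ∀ z ∈ K, z.2 ≤ z1.2) (hmin : ∀ z ∈ K, z2.2 ≤ z.2) :
    volume (sweep K (1, 0)) = volume K + ENNReal.ofReal (z1.2 - z2.2) := by
  rw [vol_slices (sweep_compact hc _).measurableSet, vol_slices hc.measurableSet]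
  have key : ∀ y, volume (sl (sweep K (1, 0)) y) =
      volume (sl K y) + (Icc z2.2 z1.2).indicator (fun _ => 1) y := by
    intro y
    by_cases hy : y ∈ Icc z2.2 z1.2
    · have hne := (proj_slice hK h1 h2 hmax hmin y).2 hy
      rw [indicator_of_mem hy]
      have hI := sl_eq_Icc hK hc hne
      have hle := sl_le hK hc hne
      set u := sInf (sl K y)
      set v := sSup (sl K y)
      have hs : sl (sweep K (1, 0)) y = Icc u (v + 1) := by
        ext x
        constructor
        · rintro ⟨⟨a, b⟩, hab, t, ht0, ht1, he⟩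
          have e1 : x = a + t := by
            have := congrArg Prod.fst he
            simpa using this
          have e2 : b = y := by
            have := congrArg Prod.snd he
            simpa using this.symm
          subst e2
          have : a ∈ Icc u v := by rw [← hI]; exact hab
          rw [e1]
          exact ⟨by linarith [this.1], by linarith [this.2]⟩
        · rintro ⟨ha, hb⟩
          refine ⟨(max u (x - 1), y), ?_, x - max u (x - 1), ?_, ?_, ?_⟩
          · have : max u (x - 1) ∈ Icc u v := ⟨le_max_left _ _, max_le hle (by linarith)⟩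
            rw [← hI] at this
            exact this
          · rw [sub_nonneg]; exact max_le ha (by linarith)
          · linarith [le_max_right u (x - 1)]
          · ext <;> simp
      rw [hs, hI, Real.volume_Icc, Real.volume_Icc, ← ENNReal.ofReal_one,
        ← ENNReal.ofReal_add (by linarith) zero_le_one]
      congr 1
      ring
    · rw [indicator_of_notMem hy, add_zero]
      have hne : sl K y = ∅ := by
        rw [← not_nonempty_iff_eq_empty]
        exact fun hcon => hy ((proj_slice hK h1 h2 hmax hmin y).1 hcon)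
      rw [hne]
      have : sl (sweep K (1, 0)) y = ∅ := by
        rw [← not_nonempty_iff_eq_empty]
        rintro ⟨x, ⟨⟨a, b⟩, hab, t, ht0, ht1, he⟩⟩
        have e2 : b = y := by
          have := congrArg Prod.snd he
          simpa using this.symm
        subst e2
        have : a ∈ sl K b := hab
        rw [hne] at this
        exact this
      rw [this]
  simp_rw [key]
  rw [lintegral_add_right _ (measurable_const.indicator measurableSet_Icc),
    lintegral_indicator measurableSet_Icc, setLIntegral_const, one_mul, Real.volume_Icc]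

theorem vol_sweep {K : Set (ℝ × ℝ)} (hK : Convex ℝ K) (hc : IsCompact K) (hne : K.Nonempty)
    (p : ℝ × ℝ) : ∃ z1 ∈ K, ∃ z2 ∈ K, (∀ z ∈ K, dt p z ≤ dt p z1) ∧ (∀ z ∈ K, dt p z2 ≤ dt p z) ∧
      volume (sweep K p) = volume K + ENNReal.ofReal (dt p z1 - dt p z2) := by
  have hcont : ContinuousOn (fun z => dt p z) K := by
    unfold dt
    fun_prop
  obtain ⟨z1, h1, hmax⟩ := hc.exists_isMaxOn hne hcont
  obtain ⟨z2, h2, hmin⟩ := hc.exists_isMinOn hne hcont
  refine ⟨z1, h1, z2, h2, fun z hz => hmax hz, fun z hz => hmin hz, ?_⟩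
  by_cases hp : p = 0
  · subst hp
    have e : sweep K 0 = K := by
      ext z
      constructor
      · rintro ⟨x, hx, t, _, _, rfl⟩
        simpa using hx
      · intro hz
        exact ⟨z, hz, 0, le_rfl, zero_le_one, by simp⟩
    rw [e]
    simp [dt]
  · set r := p.1 ^ 2 + p.2 ^ 2 with hr
    have hr0 : 0 < r := by
      rcases (show p.1 ≠ 0 ∨ p.2 ≠ 0 by
        by_contra hcon
        push Not at hcon
        exact hp (Prod.ext hcon.1 hcon.2)) with h | h <;> positivity
    let T := lin p.1 (-p.2 / r) p.2 (p.1 / r)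
    let T' := lin (p.1 / r) (p.2 / r) (-p.2) p.1
    have hTT' : ∀ z, T (T' z) = z := by
      intro z
      simp only [T, T', lin_apply]
      ext
      · simp only
        field_simp
        rw [hr]; ring
      · simp only
        field_simp
        rw [hr]; ring
    have hT'T : ∀ z, T' (T z) = z := by
      intro z
      simp only [T, T', lin_apply]
      ext
      · simp only
        field_simp
        rw [hr]; ring
      · simp only
        field_simp
        rw [hr]; ring
    have hdet : p.1 * (p.1 / r) - -p.2 / r * p.2 = 1 := by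
      field_simp
      rw [hr]; ring
    have hT1 : T (1, 0) = p := by simp [T]
    have hKK : K = T '' (T' '' K) := by
      ext z
      constructor
      · intro hz
        exact ⟨T' z, ⟨z, hz, rfl⟩, hTT' z⟩
      · rintro ⟨_, ⟨x, hx, rfl⟩, rfl⟩
        rw [hTT']
        exact hx
    have hsw : sweep K p = T '' (sweep (T' '' K) (1, 0)) := by
      ext z
      constructor
      · rintro ⟨x, hx, t, h0, h1, rfl⟩
        refine ⟨T' x + t • (1, 0), ⟨T' x, ⟨x, hx, rfl⟩, t, h0, h1, rfl⟩, ?_⟩
        rw [map_add, map_smul, hTT', hT1]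
      · rintro ⟨_, ⟨_, ⟨x, hx, rfl⟩, t, h0, h1, rfl⟩, rfl⟩
        refine ⟨x, hx, t, h0, h1, ?_⟩
        rw [map_add, map_smul, hTT', hT1]
    have hdt : ∀ z, (T' z).2 = dt p z := by
      intro z
      simp only [T', lin_apply, dt]
      ring
    have hv1 : volume (sweep K p) = volume (sweep (T' '' K) (1, 0)) := by
      rw [hsw, vol_image_lin, hdet]; simp
    have hv2 : volume K = volume (T' '' K) := by
      conv_lhs => rw [hKK]
      rw [vol_image_lin, hdet]; simp
    rw [hv1, hv2, vol_sweep_e1 (hK.linear_image T')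
      (hc.image (LinearMap.continuous_of_finiteDimensional T')) (z1 := T' z1) (z2 := T' z2)
      ⟨z1, h1, rfl⟩ ⟨z2, h2, rfl⟩]
    · rw [hdt, hdt]
    · rintro _ ⟨z, hz, rfl⟩
      rw [hdt, hdt]
      exact hmax hz
    · rintro _ ⟨z, hz, rfl⟩
      rw [hdt, hdt]
      exact hmin hz

end H32.HT
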