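import Mathlib
import Pool.Agent.H32.HT.Body

set_option autoImplicit false

/-! Comparison of the area of a plane convex body with that of its difference body, with the
equality case. -/

namespace H32.HT

open MeasureTheory Set Topology

theorem const_of_step {F H : ℝ → ℝ} {w : ℝ} (hH : ConcaveOn ℝ (Icc (-w) w) H)
    (hstep : ∀ p ∈ Icc (-w) w, ∀ q ∈ Icc (-w) w,
      |F p - F q| ≤ 2 * H ((p + q) / 2) - H p - H q) :
    ∀ p ∈ Ioo (-w) w, ∀ q ∈ Ioo (-w) w, p < q → F p = F q := by
  intro p hp q hq hpq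
  have hcont := hH.continuousOn_interior
  rw [interior_Icc] at hcont
  have hcp : ContinuousAt H p := hcont.continuousAt (isOpen_Ioo.mem_nhds hp)
  have hcq : ContinuousAt H q := hcont.continuousAt (isOpen_Ioo.mem_nhds hq)
  have habs : |F p - F q| ≤ 0 := by
    apply le_of_forall_pos_le_add
    intro e he
    rw [Metric.continuousAt_iff] at hcp hcq
    obtain ⟨d1, hd1, h1⟩ := hcp (e / 2) (by linarith)
    obtain ⟨d2, hd2, h2⟩ := hcq (e / 2) (by linarith)
    set d := min (min d1 d2) (p + w) with hd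
    have hd0 : 0 < d := lt_min (lt_min hd1 hd2) (by linarith [hp.1])
    obtain ⟨n, hn⟩ := exists_nat_gt ((q - p) / d)
    have hn0 : (0 : ℝ) < n := lt_of_le_of_lt (div_nonneg (by linarith) hd0.le) hn
    have hhd : (q - p) / n < d := by
      rw [div_lt_iff₀ hn0]
      rw [div_lt_iff₀ hd0] at hn
      linarith
    set h := (q - p) / n with hh
    have hh0 : 0 < h := div_pos (by linarith) hn0
    have hnh : n * h = q - p := by rw [hh]; field_simp
    let x : ℕ → ℝ := fun i => p + i * h
    have hxw : ∀ i, i ≤ n → p ≤ x i ∧ x i ≤ q := by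
      intro i hi
      have hi' : (i : ℝ) ≤ n := by exact_mod_cast hi
      constructor
      · simp only [x]
        have : 0 ≤ (i : ℝ) * h := by positivity
        linarith
      · simp only [x]
        have : (i : ℝ) * h ≤ n * h := mul_le_mul_of_nonneg_right hi' hh0.le
        linarith
    let G : ℕ → ℝ := fun i => H (x i) - H (x i - h / 2)
    have hterm : ∀ i ∈ Finset.range n, |F (x i) - F (x (i + 1))| ≤ G i - G (i + 1) := by
      intro i hi
      have hi' := Finset.mem_range.1 hi
      have a1 := hxw i (by omega)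
      have a2 := hxw (i + 1) (by omega)
      have hpw : h < p + w := lt_of_lt_of_le hhd (min_le_right _ _)
      have b1 : x i ∈ Icc (-w) w := ⟨by linarith [hp.1], by linarith [hq.2]⟩
      have b2 : x (i + 1) ∈ Icc (-w) w := ⟨by linarith [hp.1], by linarith [hq.2]⟩
      have e1 : x (i + 1) = x i + h := by simp only [x]; push_cast; ring
      have s1 := hstep _ b1 _ b2
      have e2 : (x i + x (i + 1)) / 2 = x i + h / 2 := by rw [e1]; ring
      rw [e2] at s1
      have b3 : x i - h / 2 ∈ Icc (-w) w := ⟨by linarith, by linarith [hq.2]⟩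
      have b4 : x i + h / 2 ∈ Icc (-w) w := ⟨by linarith [hp.1], by
        have := b2.2; rw [e1] at this; linarith⟩
      have c1 := hH.2 b3 b4 (show (0 : ℝ) ≤ 1 / 2 by norm_num) (show (0 : ℝ) ≤ 1 / 2 by norm_num)
        (by norm_num)
      simp only [smul_eq_mul] at c1
      have e3 : 1 / 2 * (x i - h / 2) + 1 / 2 * (x i + h / 2) = x i := by ring
      rw [e3] at c1
      refine s1.trans ?_
      simp only [G]
      have e4 : x (i + 1) - h / 2 = x i + h / 2 := by rw [e1]; ring
      rw [e4]
      linarith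
    have hsum : |F (x 0) - F (x n)| ≤ G 0 - G n := by
      have t1 := Finset.sum_range_sub' (fun i => F (x i)) n
      have t2 := Finset.sum_range_sub' G n
      rw [← t1, ← t2]
      exact (Finset.abs_sum_le_sum_abs _ _).trans (Finset.sum_le_sum hterm)
    have x0 : x 0 = p := by simp [x]
    have xn : x n = q := by simp only [x]; rw [hnh]; ring
    rw [x0, xn] at hsum
    have g0 : G 0 ≤ e / 2 := by
      have : dist (p - h / 2) p < d1 := by
        rw [Real.dist_eq]
        have : p - h / 2 - p = -(h / 2) := by ring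
        rw [this, abs_neg, abs_of_pos (by linarith)]
        have : d ≤ d1 := (min_le_left _ _).trans (min_le_left _ _)
        linarith
      have h3 := h1 this
      rw [Real.dist_eq, abs_lt] at h3
      simp only [G, x0]
      linarith [h3.1]
    have gn : -(e / 2) ≤ G n := by
      have : dist (q - h / 2) q < d2 := by
        rw [Real.dist_eq]
        have : q - h / 2 - q = -(h / 2) := by ring
        rw [this, abs_neg, abs_of_pos (by linarith)]
        have : d ≤ d2 := (min_le_left _ _).trans (min_le_right _ _)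
        linarith
      have h3 := h2 this
      rw [Real.dist_eq, abs_lt] at h3
      simp only [G, xn]
      linarith [h3.2]
    linarith
  have := abs_nonpos_iff.1 habs
  linarith

theorem relBall_convex {K : Set (ℝ × ℝ)} (hK : Convex ℝ K) : Convex ℝ (relBall K) := by
  rintro _ ⟨x, hx, y, hy, rfl⟩ _ ⟨z, hz, w, hw, rfl⟩ a b ha hb hab
  refine ⟨a • x + b • z, hK hx hz ha hb hab, a • y + b • w, hK hy hw ha hb hab, ?_⟩
  simp only [smul_sub, smul_add, smul_smul]
  rw [mul_comm a, mul_comm b]
  abel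

theorem relBall_compact {K : Set (ℝ × ℝ)} (hc : IsCompact K) : IsCompact (relBall K) := by
  have : relBall K = (fun q : (ℝ × ℝ) × (ℝ × ℝ) => (1 / 2 : ℝ) • (q.1 - q.2)) '' (K ×ˢ K) := by
    ext z
    constructor
    · rintro ⟨x, hx, y, hy, rfl⟩
      exact ⟨(x, y), ⟨hx, hy⟩, rfl⟩
    · rintro ⟨⟨x, y⟩, ⟨hx, hy⟩, rfl⟩
      exact ⟨x, hx, y, hy, rfl⟩
  rw [this]
  exact (hc.prod hc).image (by fun_prop)

theorem relBall_sym {K : Set (ℝ × ℝ)} : ∀ p ∈ relBall K, -p ∈ relBall K := by
  rintro _ ⟨x, hx, y, hy, rfl⟩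
  refine ⟨y, hy, x, hx, ?_⟩
  rw [← smul_neg, neg_sub]

theorem relBall_interior {K : Set (ℝ × ℝ)} (hi : (interior K).Nonempty) :
    (interior (relBall K)).Nonempty := by
  obtain ⟨q, hq⟩ := hi
  let φ := (Homeomorph.subRight q).trans (Homeomorph.smulOfNeZero (1 / 2 : ℝ) (by norm_num))
  have hopen : IsOpen (φ '' interior K) := φ.isOpenMap _ isOpen_interior
  have hsub : φ '' interior K ⊆ relBall K := by
    rintro _ ⟨z, hz, rfl⟩
    exact ⟨z, interior_subset hz, q, interior_subset hq, rfl⟩
  exact ⟨φ q, interior_maximal hsub hopen ⟨q, hq, rfl⟩⟩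

section

variable {K : Set (ℝ × ℝ)} (hK : Convex ℝ K) (hc : IsCompact K) {z1 z2 : ℝ × ℝ}
    (h1 : z1 ∈ K) (h2 : z2 ∈ K) (hmax : ∀ z ∈ K, z.2 ≤ z1.2) (hmin : ∀ z ∈ K, z2.2 ≤ z.2)

/-- The part of the relative ball coming from opposite slices. -/
def midPart (K : Set (ℝ × ℝ)) (c : ℝ) : Set (ℝ × ℝ) :=
  {z | ∃ p ∈ K, ∃ q ∈ K, p.2 + q.2 = 2 * c ∧ z = (1 / 2 : ℝ) • (p - q)}

theorem midPart_sub (c : ℝ) : midPart K c ⊆ relBall K := by
  rintro _ ⟨p, hp, q, hq, _, rfl⟩
  exact ⟨p, hp, q, hq, rfl⟩

include hc in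
theorem midPart_compact (c : ℝ) : IsCompact (midPart K c) := by
  have : midPart K c = (fun q : (ℝ × ℝ) × (ℝ × ℝ) => (1 / 2 : ℝ) • (q.1 - q.2)) ''
      ((K ×ˢ K) ∩ {q | q.1.2 + q.2.2 = 2 * c}) := by
    ext z
    constructor
    · rintro ⟨x, hx, y, hy, h, rfl⟩
      exact ⟨(x, y), ⟨⟨hx, hy⟩, h⟩, rfl⟩
    · rintro ⟨⟨x, y⟩, ⟨⟨hx, hy⟩, h⟩, rfl⟩
      exact ⟨x, hx, y, hy, h, rfl⟩
  rw [this]
  apply IsCompact.image _ (by fun_prop)
  apply (hc.prod hc).inter_right
  exact isClosed_eq (by fun_prop) continuous_const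

include hK hc h1 h2 hmax hmin

theorem vol_sl_midPart (y : ℝ) : 2 * volume (sl (midPart K ((z1.2 + z2.2) / 2)) y) =
    volume (sl K ((z1.2 + z2.2) / 2 + y)) + volume (sl K ((z1.2 + z2.2) / 2 - y)) := by
  set c := (z1.2 + z2.2) / 2 with hcdef
  by_cases hy : c + y ∈ Icc z2.2 z1.2
  · have hy' : c - y ∈ Icc z2.2 z1.2 := ⟨by linarith [hy.2], by linarith [hy.1]⟩
    have n1 := (proj_slice hK h1 h2 hmax hmin _).2 hy
    have n2 := (proj_slice hK h1 h2 hmax hmin _).2 hy'
    have I1 := sl_eq_Icc hK hc n1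
    have I2 := sl_eq_Icc hK hc n2
    have L1 := sl_le hK hc n1
    have L2 := sl_le hK hc n2
    set u := sInf (sl K (c + y))
    set v := sSup (sl K (c + y))
    set u' := sInf (sl K (c - y))
    set v' := sSup (sl K (c - y))
    have hs : sl (midPart K c) y = Icc ((u - v') / 2) ((v - u') / 2) := by
      ext x
      constructor
      · rintro ⟨⟨p1, p2⟩, hp, ⟨q1, q2⟩, hq, hpq, he⟩
        simp only [Prod.mk_sub_mk, Prod.smul_mk, smul_eq_mul, Prod.mk.injEq] at hpq he
        obtain ⟨e1, e2⟩ := he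
        have e3 : p2 = c + y := by linarith
        have e4 : q2 = c - y := by linarith
        subst e3 e4
        have m1 : p1 ∈ Icc u v := by rw [← I1]; exact hp
        have m2 : q1 ∈ Icc u' v' := by rw [← I2]; exact hq
        exact ⟨by linarith [m1.1, m2.2], by linarith [m1.2, m2.1]⟩
      · rintro ⟨ha, hb⟩
        have m1 : max u (2 * x + u') ∈ Icc u v := ⟨le_max_left _ _, max_le L1 (by linarith)⟩
        have m2 : max u (2 * x + u') - 2 * x ∈ Icc u' v' :=
          ⟨by linarith [le_max_right u (2 * x + u')], by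
            rw [sub_le_iff_le_add]
            exact max_le (by linarith) (by linarith)⟩
        rw [← I1] at m1
        rw [← I2] at m2
        refine ⟨_, m1, _, m2, by simp only; ring, ?_⟩
        ext
        · simp
        · simp only [Prod.mk_sub_mk, Prod.smul_mk, smul_eq_mul]
          ring
    rw [hs, I1, I2, Real.volume_Icc, Real.volume_Icc, Real.volume_Icc,
      ← ENNReal.ofReal_add (by linarith) (by linarith)]
    have : (2 : ENNReal) = ENNReal.ofReal 2 := by simp
    rw [this, ← ENNReal.ofReal_mul (by norm_num)]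
    congr 1
    ring
  · have hy' : c - y ∉ Icc z2.2 z1.2 := by
      intro hcon
      exact hy ⟨by linarith [hcon.2], by linarith [hcon.1]⟩
    have n1 : sl K (c + y) = ∅ := by
      rw [← not_nonempty_iff_eq_empty]
      exact fun hcon => hy ((proj_slice hK h1 h2 hmax hmin _).1 hcon)
    have n2 : sl K (c - y) = ∅ := by
      rw [← not_nonempty_iff_eq_empty]
      exact fun hcon => hy' ((proj_slice hK h1 h2 hmax hmin _).1 hcon)
    have n3 : sl (midPart K c) y = ∅ := by
      rw [← not_nonempty_iff_eq_empty]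
      rintro ⟨x, ⟨p1, p2⟩, hp, ⟨q1, q2⟩, hq, hpq, he⟩
      simp only [Prod.mk_sub_mk, Prod.smul_mk, smul_eq_mul, Prod.mk.injEq] at hpq he
      obtain ⟨e1, e2⟩ := he
      have e3 : p2 = c + y := by linarith
      subst e3
      have : p1 ∈ sl K (c + y) := hp
      rw [n1] at this
      exact this
    rw [n1, n2, n3]
    simp

theorem vol_midPart : volume (midPart K ((z1.2 + z2.2) / 2)) = volume K := by
  have e : 2 * volume (midPart K ((z1.2 + z2.2) / 2)) = 2 * volume K := by
    rw [vol_slices (midPart_compact hc _).measurableSet,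
      ← lintegral_const_mul' _ _ (by simp : (2 : ENNReal) ≠ ⊤)]
    simp_rw [vol_sl_midPart hK hc h1 h2 hmax hmin]
    have hm : Measurable (fun y => volume (sl K y)) :=
      measurable_measure_prodMk_right hc.measurableSet
    have hm1 : Measurable (fun y => volume (sl K ((z1.2 + z2.2) / 2 + y))) :=
      hm.comp (measurable_const.add measurable_id)
    have e1 : ∫⁻ y, volume (sl K ((z1.2 + z2.2) / 2 + y)) = ∫⁻ y, volume (sl K y) :=
      lintegral_add_left_eq_self (fun y => volume (sl K y)) _
    have e2 : ∫⁻ y, volume (sl K ((z1.2 + z2.2) / 2 - y)) = ∫⁻ y, volume (sl K y) :=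
      lintegral_sub_left_eq_self (fun y => volume (sl K y)) _
    rw [lintegral_add_left hm1, e1, e2, ← vol_slices hc.measurableSet, two_mul]
  exact (ENNReal.mul_right_inj (by simp) (by simp)).1 e

theorem area_eq_sym (hi : (interior K).Nonempty) (hv : volume (relBall K) ≤ volume K) :
    ∃ g : ℝ × ℝ, ∀ z ∈ K, (2 : ℝ) • g - z ∈ K := by
  set c := (z1.2 + z2.2) / 2 with hcdef
  have hvN := vol_midPart hK hc h1 h2 hmax hmin
  rw [← hcdef] at hvN
  have hNc := midPart_compact hc (c := c)
  have hfin : volume (midPart K c) ≠ ⊤ := hNc.measure_ne_top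
  have hnull : volume (relBall K \ midPart K c) = 0 := by
    rw [measure_sdiff (midPart_sub c) hNc.measurableSet.nullMeasurableSet hfin, hvN]
    exact tsub_eq_zero_of_le hv
  have hMN : relBall K ⊆ midPart K c := by
    intro z hz
    by_contra hzN
    have hcl : z ∈ closure (interior (relBall K)) := by
      rw [(relBall_convex hK).closure_interior_eq_closure_of_nonempty_interior
        (relBall_interior hi)]
      exact subset_closure hz
    have hopen : IsOpen (midPart K c)ᶜ := hNc.isClosed.isOpen_compl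
    obtain ⟨x, hx1, hx2⟩ := mem_closure_iff.1 hcl _ hopen hzN
    have hpos : 0 < volume ((midPart K c)ᶜ ∩ interior (relBall K)) :=
      (hopen.inter isOpen_interior).measure_pos _ ⟨x, hx1, hx2⟩
    have hle : volume ((midPart K c)ᶜ ∩ interior (relBall K)) ≤
        volume (relBall K \ midPart K c) := by
      apply measure_mono
      rintro y ⟨hy1, hy2⟩
      exact ⟨interior_subset hy2, hy1⟩
    rw [hnull] at hle
    exact absurd hpos (not_lt.2 hle)
  -- slice end points
  let a : ℝ → ℝ := fun y => sInf (sl K y)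
  let b : ℝ → ℝ := fun y => sSup (sl K y)
  have hsl : ∀ y ∈ Icc z2.2 z1.2, sl K y = Icc (a y) (b y) ∧ a y ≤ b y := by
    intro y hy
    have n1 := (proj_slice hK h1 h2 hmax hmin _).2 hy
    exact ⟨sl_eq_Icc hK hc n1, sl_le hK hc n1⟩
  have ha : ∀ y ∈ Icc z2.2 z1.2, (a y, y) ∈ K := by
    intro y hy
    obtain ⟨e, l⟩ := hsl y hy
    have : a y ∈ sl K y := by rw [e]; exact ⟨le_rfl, l⟩
    exact this
  have hb : ∀ y ∈ Icc z2.2 z1.2, (b y, y) ∈ K := by
    intro y hy
    obtain ⟨e, l⟩ := hsl y hy
    have : b y ∈ sl K y := by rw [e]; exact ⟨l, le_rfl⟩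
    exact this
  have hbd : ∀ x y, (x, y) ∈ K → a y ≤ x ∧ x ≤ b y := by
    intro x y hxy
    have hy : y ∈ Icc z2.2 z1.2 := ⟨hmin _ hxy, hmax _ hxy⟩
    obtain ⟨e, l⟩ := hsl y hy
    have : x ∈ sl K y := hxy
    rw [e] at this
    exact this
  set w := (z1.2 - z2.2) / 2 with hw
  have hwIcc : ∀ s, s ∈ Icc (-w) w → c + s ∈ Icc z2.2 z1.2 ∧ c - s ∈ Icc z2.2 z1.2 := by
    intro s hs
    constructor
    · exact ⟨by linarith [hs.1], by linarith [hs.2]⟩
    · exact ⟨by linarith [hs.2], by linarith [hs.1]⟩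
  -- main inequality
  have hmain : ∀ p ∈ Icc (-w) w, ∀ q ∈ Icc (-w) w,
      b (c + p) - a (c - q) ≤ b (c + (p + q) / 2) - a (c - (p + q) / 2) := by
    intro p hp q hq
    have m1 := hb _ (hwIcc p hp).1
    have m2 := ha _ (hwIcc q hq).2
    have m3 : (1 / 2 : ℝ) • (((b (c + p), c + p) : ℝ × ℝ) - (a (c - q), c - q)) ∈ relBall K :=
      ⟨_, m1, _, m2, rfl⟩
    obtain ⟨⟨x1, y1⟩, hx1, ⟨x2, y2⟩, hx2, hyy, he⟩ := hMN m3
    simp only [Prod.mk_sub_mk, Prod.smul_mk, smul_eq_mul, Prod.mk.injEq] at he hyy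
    obtain ⟨e1, e2⟩ := he
    have e3 : y1 = c + (p + q) / 2 := by linarith
    have e4 : y2 = c - (p + q) / 2 := by linarith
    subst e3 e4
    have k1 := (hbd _ _ hx1).2
    have k2 := (hbd _ _ hx2).1
    linarith
  let F : ℝ → ℝ := fun s => b (c + s) + a (c - s)
  let H : ℝ → ℝ := fun s => b (c + s) - a (c - s)
  have hstep : ∀ p ∈ Icc (-w) w, ∀ q ∈ Icc (-w) w,
      |F p - F q| ≤ 2 * H ((p + q) / 2) - H p - H q := by
    intro p hp q hq
    have i1 := hmain p hp q hq
    have i2 := hmain q hq p hp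
    rw [add_comm q p] at i2
    simp only [F, H]
    rw [abs_le]
    constructor <;> linarith
  have hH : ConcaveOn ℝ (Icc (-w) w) H := by
    refine ⟨convex_Icc _ _, ?_⟩
    intro s hs t ht p q hp hq hpq
    have m1 := hK (hb _ (hwIcc s hs).1) (hb _ (hwIcc t ht).1) hp hq hpq
    have m2 := hK (ha _ (hwIcc s hs).2) (ha _ (hwIcc t ht).2) hp hq hpq
    simp only [Prod.smul_mk, Prod.mk_add_mk, smul_eq_mul] at m1 m2
    have e1 : p * (c + s) + q * (c + t) = c + (p * s + q * t) := by
      have : c = (p + q) * c := by rw [hpq, one_mul]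
      linear_combination (-1 : ℝ) * this
    have e2 : p * (c - s) + q * (c - t) = c - (p * s + q * t) := by
      have : c = (p + q) * c := by rw [hpq, one_mul]
      linear_combination (-1 : ℝ) * this
    rw [e1] at m1
    rw [e2] at m2
    have k1 := (hbd _ _ m1).2
    have k2 := (hbd _ _ m2).1
    simp only [H, smul_eq_mul]
    linarith
  have hconst := const_of_step hH hstep
  have hF0 : ∀ s ∈ Ioo (-w) w, F s = F 0 := by
    intro s hs
    have h0 : (0 : ℝ) ∈ Ioo (-w) w := ⟨by linarith [hs.1, hs.2], by linarith [hs.1, hs.2]⟩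
    rcases lt_trichotomy s 0 with h | h | h
    · exact hconst s hs 0 h0 h
    · rw [h]
    · exact (hconst 0 h0 s hs h).symm
  refine ⟨(F 0 / 2, c), ?_⟩
  -- interior points first
  have hint : ∀ z ∈ interior K, (2 : ℝ) • ((F 0 / 2, c) : ℝ × ℝ) - z ∈ K := by
    rintro ⟨x, y⟩ hz
    have hzK := interior_subset hz
    have hy1 : y < z1.2 := by
      obtain ⟨e, he, hball⟩ := Metric.isOpen_iff.1 isOpen_interior _ hz
      have : ((x, y + e / 2) : ℝ × ℝ) ∈ interior K := by
        apply hball
        rw [Metric.mem_ball, Prod.dist_eq]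
        simp only [dist_self, Real.dist_eq]
        have : y + e / 2 - y = e / 2 := by ring
        rw [this, abs_of_pos (by linarith)]
        exact max_lt he (by linarith)
      have := hmax _ (interior_subset this)
      simp only at this
      linarith
    have hy2 : z2.2 < y := by
      obtain ⟨e, he, hball⟩ := Metric.isOpen_iff.1 isOpen_interior _ hz
      have : ((x, y - e / 2) : ℝ × ℝ) ∈ interior K := by
        apply hball
        rw [Metric.mem_ball, Prod.dist_eq]
        simp only [dist_self, Real.dist_eq]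
        have : y - e / 2 - y = -(e / 2) := by ring
        rw [this, abs_neg, abs_of_pos (by linarith)]
        exact max_lt he (by linarith)
      have := hmin _ (interior_subset this)
      simp only at this
      linarith
    have hs : y - c ∈ Ioo (-w) w := ⟨by linarith, by linarith⟩
    have hs' : -(y - c) ∈ Ioo (-w) w := ⟨by linarith, by linarith⟩
    have f1 := hF0 _ hs
    have f2 := hF0 _ hs'
    have k := hbd _ _ hzK
    have e1 : c + (y - c) = y := by ring
    have e2 : c - (y - c) = 2 * c - y := by ring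
    have e3 : c + -(y - c) = 2 * c - y := by ring
    have e4 : c - -(y - c) = y := by ring
    have f1' : b y + a (2 * c - y) = F 0 := by rw [← f1]; simp only [F, e1, e2]
    have f2' : b (2 * c - y) + a y = F 0 := by rw [← f2]; simp only [F, e3, e4]
    have hy' : 2 * c - y ∈ Icc z2.2 z1.2 := ⟨by linarith, by linarith⟩
    obtain ⟨e, l⟩ := hsl _ hy'
    have hmem : F 0 - x ∈ sl K (2 * c - y) := by
      rw [e]
      exact ⟨by linarith [k.2], by linarith [k.1]⟩
    have e5 : (2 : ℝ) • ((F 0 / 2, c) : ℝ × ℝ) - (x, y) = (F 0 - x, 2 * c - y) := by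
      ext
      · simp only [Prod.smul_mk, smul_eq_mul, Prod.mk_sub_mk]
        ring
      · simp only [Prod.smul_mk, smul_eq_mul, Prod.mk_sub_mk]
    rw [e5]
    exact hmem
  intro z hz
  have hcl : z ∈ closure (interior K) := by
    rw [hK.closure_interior_eq_closure_of_nonempty_interior hi]
    exact subset_closure hz
  have hcont : Continuous (fun z : ℝ × ℝ => (2 : ℝ) • ((F 0 / 2, c) : ℝ × ℝ) - z) := by fun_prop
  have := map_mem_closure hcont hcl hint
  rwa [hc.isClosed.closure_eq] at this

end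

/-- The area of a plane convex body is at most that of its relative unit ball, and equality forces
central symmetry. -/
theorem area_relBall {K : Set (ℝ × ℝ)} (hK : Convex ℝ K) (hc : IsCompact K)
    (hi : (interior K).Nonempty) : volume K ≤ volume (relBall K) ∧
      (volume (relBall K) ≤ volume K → ∃ g : ℝ × ℝ, ∀ z ∈ K, (2 : ℝ) • g - z ∈ K) := by
  have hne : K.Nonempty := hi.mono interior_subset
  obtain ⟨z1, h1, hmax⟩ := hc.exists_isMaxOn hne continuous_snd.continuousOn
  obtain ⟨z2, h2, hmin⟩ := hc.exists_isMinOn hne continuous_snd.continuousOn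
  constructor
  · rw [← vol_midPart hK hc h1 h2 (fun z hz => hmax hz) (fun z hz => hmin hz)]
    exact measure_mono (midPart_sub _)
  · exact area_eq_sym hK hc h1 h2 (fun z hz => hmax hz) (fun z hz => hmin hz) hi

end H32.HT
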