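import Mathlib
import Pool.Agent.H32.HT.BM

set_option autoImplicit false

/-! Normalisation of a symmetric body and the final inequality. -/

namespace H32.HT

open MeasureTheory Set Topology

theorem polar_image_lin (a b c d : ℝ) (M : Set (ℝ × ℝ)) :
    polar (lin a b c d '' M) = lin a c b d ⁻¹' polar M := by
  ext y
  constructor
  · intro h x hx
    have := h _ ⟨x, hx, rfl⟩
    simp only [lin_apply] at this ⊢
    nlinarith
  · rintro h _ ⟨x, hx, rfl⟩
    have := h x hx
    simp only [lin_apply] at this ⊢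
    nlinarith

theorem area_image_lin (a b c d : ℝ) (M : Set (ℝ × ℝ)) :
    area (lin a b c d '' M) = |a * d - b * c| * area M := by
  unfold area
  rw [vol_image_lin, ENNReal.toReal_mul, ENNReal.toReal_ofReal (abs_nonneg _)]

theorem area_polar_image_lin (a b c d : ℝ) (h : a * d - b * c ≠ 0) (M : Set (ℝ × ℝ)) :
    area (polar (lin a b c d '' M)) = |a * d - b * c|⁻¹ * area (polar M) := by
  unfold area
  have h2 : a * d - c * b ≠ 0 := by rwa [mul_comm c b]
  rw [polar_image_lin, vol_preimage_lin _ _ _ _ h2, ENNReal.toReal_mul,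
    ENNReal.toReal_ofReal (abs_nonneg _), abs_inv, mul_comm c b]

theorem area_translate (g : ℝ × ℝ) (M : Set (ℝ × ℝ)) :
    area ((fun x => g + x) '' M) = area M := by
  unfold area
  rw [image_add_left, measure_preimage_add]

theorem exists_max_dt {M : Set (ℝ × ℝ)} (hc : IsCompact M) (hs : ∀ p ∈ M, -p ∈ M)
    (hi : (interior M).Nonempty) :
    ∃ x0 ∈ M, ∃ y0 ∈ M, 0 < dt x0 y0 ∧ ∀ x ∈ M, ∀ y ∈ M, dt x y ≤ dt x0 y0 := by
  have hne : M.Nonempty := hi.mono interior_subset
  have hcont : ContinuousOn (fun q : (ℝ × ℝ) × (ℝ × ℝ) => dt q.1 q.2) (M ×ˢ M) := by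
    unfold dt
    fun_prop
  obtain ⟨⟨x0, y0⟩, ⟨hx0, hy0⟩, hmax⟩ := (hc.prod hc).exists_isMaxOn (hne.prod hne) hcont
  have hm : ∀ x ∈ M, ∀ y ∈ M, dt x y ≤ dt x0 y0 := fun x hx y hy =>
    hmax (show (x, y) ∈ M ×ˢ M from ⟨hx, hy⟩)
  refine ⟨x0, hx0, y0, hy0, ?_, hm⟩
  by_contra hcon
  push Not at hcon
  have hz : ∀ x ∈ M, ∀ y ∈ M, dt x y = 0 := by
    intro x hx y hy
    apply le_antisymm ((hm x hx y hy).trans hcon)
    have := (hm (-x) (hs x hx) y hy).trans hcon
    unfold dt at this ⊢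
    simp only [Prod.fst_neg, Prod.snd_neg] at this
    linarith
  obtain ⟨m, hm0⟩ := hi
  obtain ⟨e, he, hball⟩ := Metric.isOpen_iff.1 isOpen_interior _ hm0
  have m0 := interior_subset hm0
  have m1 : ((m.1 + e / 2, m.2) : ℝ × ℝ) ∈ M := by
    apply interior_subset
    apply hball
    rw [Metric.mem_ball, Prod.dist_eq]
    simp only [dist_self, Real.dist_eq]
    have : m.1 + e / 2 - m.1 = e / 2 := by ring
    rw [this, abs_of_pos (by linarith)]
    exact max_lt (by linarith) he
  have m2 : ((m.1, m.2 + e / 2) : ℝ × ℝ) ∈ M := by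
    apply interior_subset
    apply hball
    rw [Metric.mem_ball, Prod.dist_eq]
    simp only [dist_self, Real.dist_eq]
    have : m.2 + e / 2 - m.2 = e / 2 := by ring
    rw [this, abs_of_pos (by linarith)]
    exact max_lt he (by linarith)
  have z1 := hz _ m0 _ m1
  have z2 := hz _ m0 _ m2
  have z3 := hz _ m1 _ m2
  simp only [dt] at z1 z2 z3
  nlinarith

theorem normalise {M : Set (ℝ × ℝ)} (hcv : Convex ℝ M) (hc : IsCompact M)
    (hs : ∀ p ∈ M, -p ∈ M) {x0 y0 : ℝ × ℝ} (hx0 : x0 ∈ M) (hy0 : y0 ∈ M) (hD : 0 < dt x0 y0)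
    (hm : ∀ x ∈ M, ∀ y ∈ M, dt x y ≤ dt x0 y0) :
    ∃ N : Set (ℝ × ℝ), Nrm N ∧ M = lin x0.1 y0.1 x0.2 y0.2 '' N ∧
      (area M + 4 * dt x0 y0) * area (polar M) = (area N + 4) * area (polar N) := by
  set T := lin x0.1 y0.1 x0.2 y0.2 with hT
  have hdet : x0.1 * y0.2 - y0.1 * x0.2 = dt x0 y0 := by unfold dt; ring
  have hdt : ∀ z w, dt (T z) (T w) = dt x0 y0 * dt z w := by
    intro z w
    simp only [hT, lin_apply, dt]
    ring
  have hT1 : T (1, 0) = x0 := by simp [hT]
  have hT2 : T (0, 1) = y0 := by simp [hT]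
  have hsurj : ∀ z, ∃ w, T w = z := by
    intro z
    refine ⟨((z.1 * y0.2 - z.2 * y0.1) / dt x0 y0, (x0.1 * z.2 - x0.2 * z.1) / dt x0 y0), ?_⟩
    simp only [hT, lin_apply]
    have := hD.ne'
    ext
    · simp only
      field_simp
      unfold dt; ring
    · simp only
      field_simp
      unfold dt; ring
  have hN : Nrm (T ⁻¹' M) := by
    refine ⟨hcv.linear_preimage T, ?_, ?_, ?_, ?_, ?_⟩
    · exact hc.isClosed.preimage (LinearMap.continuous_of_finiteDimensional T)
    · intro p hp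
      rw [mem_preimage, map_neg]
      exact hs _ hp
    · rw [mem_preimage, hT1]; exact hx0
    · rw [mem_preimage, hT2]; exact hy0
    · have key : ∀ p ∈ T ⁻¹' M, p.1 ≤ 1 ∧ p.2 ≤ 1 := by
        intro p hp
        have a1 := hm _ hp _ hy0
        have a2 := hm _ hx0 _ hp
        rw [← hT2, hdt] at a1
        rw [← hT1, hdt] at a2
        rw [hT2] at a1
        rw [hT1] at a2
        have b1 : dt p (0, 1) = p.1 := by simp [dt]
        have b2 : dt (1, 0) p = p.2 := by simp [dt]
        rw [b1] at a1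
        rw [b2] at a2
        constructor <;> nlinarith
      intro p hp
      have h1 := key p hp
      have h2 := key (-p) (by rw [mem_preimage, map_neg]; exact hs _ hp)
      simp only [Prod.fst_neg, Prod.snd_neg] at h2
      constructor <;> rw [abs_le] <;> constructor <;> linarith
  have hM : M = T '' (T ⁻¹' M) := by
    ext z
    constructor
    · intro hz
      obtain ⟨w, hw⟩ := hsurj z
      exact ⟨w, by rw [mem_preimage, hw]; exact hz, hw⟩
    · rintro ⟨w, hw, rfl⟩
      exact hw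
  refine ⟨T ⁻¹' M, hN, hM, ?_⟩
  have a1 : area M = dt x0 y0 * area (T ⁻¹' M) := by
    conv_lhs => rw [hM]
    rw [hT, area_image_lin, hdet, abs_of_pos hD]
  have a2 : area (polar M) = (dt x0 y0)⁻¹ * area (polar (T ⁻¹' M)) := by
    conv_lhs => rw [hM]
    rw [hT, area_polar_image_lin _ _ _ _ (by rw [hdet]; exact hD.ne'), hdet, abs_of_pos hD]
  rw [a1, a2]
  have := hD.ne'
  field_simp

/-- The upper bound for general bodies, with its equality case. -/
theorem general_bound {K : Set (ℝ × ℝ)} (hK : Convex ℝ K) (hc : IsCompact K)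
    (hi : (interior K).Nonempty) {x0 y0 : ℝ × ℝ} (hx0 : x0 ∈ relBall K) (hy0 : y0 ∈ relBall K)
    (hD : 0 < dt x0 y0) (hm : ∀ x ∈ relBall K, ∀ y ∈ relBall K, dt x y ≤ dt x0 y0) :
    (area K + 4 * dt x0 y0) * area (polar (relBall K)) ≤ best ∧
      ((area K + 4 * dt x0 y0) * area (polar (relBall K)) = best →
        ∃ g : ℝ × ℝ, K = (fun x => g + x) '' (lin x0.1 y0.1 x0.2 y0.2 '' Mst lam)) := by
  obtain ⟨N, hN, hMN, hval⟩ := normalise (relBall_convex hK) (relBall_compact hc) relBall_sym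
    hx0 hy0 hD hm
  obtain ⟨hle, heq⟩ := area_relBall hK hc hi
  have hfin : volume (relBall K) ≠ ⊤ := (relBall_compact hc).measure_ne_top
  have hle' : area K ≤ area (relBall K) := ENNReal.toReal_mono hfin hle
  have hP : 0 ≤ area (polar (relBall K)) := area_nonneg _
  have hb := hN.le_best
  have h1 : (area K + 4 * dt x0 y0) * area (polar (relBall K)) ≤
      (area (relBall K) + 4 * dt x0 y0) * area (polar (relBall K)) :=
    mul_le_mul_of_nonneg_right (by linarith) hP
  refine ⟨by linarith, ?_⟩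
  intro he
  have hPne : area (polar (relBall K)) ≠ 0 := by
    intro h0
    rw [h0, mul_zero] at he
    exact best_pos.ne he
  have hPpos : 0 < area (polar (relBall K)) := lt_of_le_of_ne hP (Ne.symm hPne)
  have hNb : (area N + 4) * area (polar N) = best := le_antisymm hb (by linarith)
  have hNM := hN.eq_best hNb
  have hKM : area K = area (relBall K) := by
    have h2 : (area (relBall K) + 4 * dt x0 y0) * area (polar (relBall K)) ≤
        (area K + 4 * dt x0 y0) * area (polar (relBall K)) := by linarith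
    have h3 := le_of_mul_le_mul_right h2 hPpos
    linarith
  have hvv : volume (relBall K) ≤ volume K := by
    have hfinK : volume K ≠ ⊤ := hc.measure_ne_top
    exact (ENNReal.toReal_le_toReal hfin hfinK).1 hKM.ge
  obtain ⟨g, hg⟩ := heq hvv
  refine ⟨g, ?_⟩
  rw [hNM] at hMN
  rw [← hMN]
  ext z
  constructor
  · intro hz
    refine ⟨z - g, ⟨z, hz, (2 : ℝ) • g - z, hg z hz, ?_⟩, by simp⟩
    ext
    · simp only [Prod.fst_sub, Prod.smul_fst, smul_eq_mul]; ring
    · simp only [Prod.snd_sub, Prod.smul_snd, smul_eq_mul]; ring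
  · rintro ⟨_, ⟨x, hx, y, hy, rfl⟩, rfl⟩
    have := hK hx (hg y hy) (a := 1 / 2) (b := 1 / 2) (by norm_num) (by norm_num) (by norm_num)
    convert this using 1
    ext
    · simp only [Prod.fst_add, Prod.fst_sub, Prod.smul_fst, smul_eq_mul]; ring
    · simp only [Prod.snd_add, Prod.snd_sub, Prod.smul_snd, smul_eq_mul]; ring

theorem relBall_affine {M : Set (ℝ × ℝ)} (hM : Convex ℝ M) (hs : ∀ p ∈ M, -p ∈ M)
    (T : (ℝ × ℝ) →ₗ[ℝ] (ℝ × ℝ)) (g : ℝ × ℝ) :
    relBall ((fun x => g + x) '' (T '' M)) = T '' M := by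
  ext z
  constructor
  · rintro ⟨_, ⟨_, ⟨x, hx, rfl⟩, rfl⟩, _, ⟨_, ⟨y, hy, rfl⟩, rfl⟩, rfl⟩
    refine ⟨(1 / 2 : ℝ) • x + (1 / 2 : ℝ) • (-y), hM hx (hs y hy) (by norm_num) (by norm_num)
      (by norm_num), ?_⟩
    rw [map_add, map_smul, map_smul, map_neg]
    simp only [add_sub_add_left_eq_sub, smul_sub, smul_neg]
    abel
  · rintro ⟨x, hx, rfl⟩
    refine ⟨g + T x, ⟨T x, ⟨x, hx, rfl⟩, rfl⟩, g + T (-x), ⟨T (-x), ⟨-x, hs x hx, rfl⟩, rfl⟩, ?_⟩
    rw [map_neg]
    simp only [add_sub_add_left_eq_sub, sub_neg_eq_add]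
    rw [← two_smul ℝ (T x), smul_smul]
    norm_num

/-- The lower bound for affine images of the extremal body. -/
theorem affine_bound {a b c d : ℝ} (hdet : a * d - b * c ≠ 0) (g : ℝ × ℝ) {K : Set (ℝ × ℝ)}
    (hKe : K = (fun x => g + x) '' (lin a b c d '' Mst lam)) {x0 y0 : ℝ × ℝ}
    (hm : ∀ x ∈ relBall K, ∀ y ∈ relBall K, dt x y ≤ dt x0 y0) :
    best ≤ (area K + 4 * dt x0 y0) * area (polar (relBall K)) := by
  have hrel : relBall K = lin a b c d '' Mst lam := by
    rw [hKe]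
    exact relBall_affine nrm_ext.cvx nrm_ext.sym _ _
  have hA : area K = |a * d - b * c| * area (Mst lam) := by
    rw [hKe, area_translate, area_image_lin]
  have hP : area (polar (relBall K)) = |a * d - b * c|⁻¹ * area (polar (Mst lam)) := by
    rw [hrel, area_polar_image_lin _ _ _ _ hdet]
  have hD : |a * d - b * c| ≤ dt x0 y0 := by
    have m1 : lin a b c d (1, 0) ∈ relBall K := by rw [hrel]; exact ⟨_, nrm_ext.e1, rfl⟩
    have m2 : lin a b c d (0, 1) ∈ relBall K := by rw [hrel]; exact ⟨_, nrm_ext.e2, rfl⟩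
    have k1 := hm _ m1 _ m2
    have k2 := hm _ m2 _ m1
    simp only [lin_apply, dt] at k1 k2
    rw [abs_le]
    unfold dt
    constructor <;> linarith
  have hpos : 0 < |a * d - b * c| := abs_pos.2 hdet
  rw [hA, hP, ← Mst_best]
  have h0 : 0 ≤ area (polar (Mst lam)) := area_nonneg _
  have h1 : (area (Mst lam) + 4) * area (polar (Mst lam)) =
      (|a * d - b * c| * area (Mst lam) + 4 * |a * d - b * c|) *
        (|a * d - b * c|⁻¹ * area (polar (Mst lam))) := by
    field_simp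
  rw [h1]
  apply mul_le_mul_of_nonneg_right (by linarith)
  positivity

end H32.HT
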